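import Pool.Agent.W2helper18.HX.LoE
import Pool.Agent.W2helper18.HE.Final

/-!
# MP_e08f0b_an, the lower bound `c n^(α - 1/2) / log n`: choice of the parameters
-/

open MeasureTheory ProbabilityTheory Real

namespace Pool.Agent.W2helper18.HX

open Pool.Agent.W2helper18.HE

noncomputable section

set_option maxHeartbeats 4000000 in
theorem lower_final {α : ℝ} (h12 : 1 / 2 < α) (h1 : α < 1) :
    ∃ q : ℝ, 0 < q ∧ ∀ n : ℕ, 1 ≤ n → ∀ c : ℝ,
      (∀ (X : Type) [MetricSpace X], ExtX α n c X) →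
      q * ((n : ℝ) ^ (α - 1 / 2) / (1 + log n)) ≤ c := by
  obtain ⟨N₀, κ, hN₀, hκ, hK⟩ := Pool.Agent.Helper392.Mey.kashin
  have hα0 : 0 < α := by linarith
  have hN01 : (1 : ℝ) ≤ N₀ := by exact_mod_cast hN₀
  have hN0 : (0 : ℝ) < N₀ := by linarith
  have hm4 := m4_nonneg
  have hl2 : 0 < log 2 := Real.log_pos (by norm_num)
  obtain ⟨B, hB⟩ : ∃ B : ℝ, B = 30 * (1 + m4) := ⟨_, rfl⟩
  have hB0 : 0 < B := by rw [hB]; positivity
  obtain ⟨C, hC⟩ : ∃ C : ℝ, C = 2 * B + 5 := ⟨_, rfl⟩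
  have hC0 : 0 < C := by rw [hC]; positivity
  have hQ : 10 * QQ B ≤ B ^ 2 := by
    unfold QQ
    rw [hB]
    nlinarith [mul_nonneg hm4 hm4]
  obtain ⟨D, hD⟩ : ∃ D : ℝ, D = 20 * (2 * C + 6) := ⟨_, rfl⟩
  have hD1 : 1 ≤ D := by rw [hD]; linarith
  have hD0 : 0 < D := by linarith
  have hlD : 0 ≤ log D := Real.log_nonneg hD1
  obtain ⟨C₁, hC₁⟩ : ∃ C₁ : ℝ, C₁ = 2 + (1 + log D) / (α * log 2) := ⟨_, rfl⟩
  have hC₁0 : 0 < C₁ := by rw [hC₁]; positivity
  obtain ⟨C₂, hC₂⟩ : ∃ C₂ : ℝ, C₂ = 20 * ((1 + B) * (1 + m4) * C₁) := ⟨_, rfl⟩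
  have hC₂0 : 0 < C₂ := by rw [hC₂]; positivity
  obtain ⟨q, hq⟩ : ∃ q : ℝ, q = min (κ / (8 * C * (N₀ : ℝ) ^ 2 * C₁)) (1 / (1 + C₂ ^ 2)) :=
    ⟨_, rfl⟩
  have hq0 : 0 < q := by
    rw [hq]; exact lt_min (by positivity) (by positivity)
  have hqa : q ≤ κ / (8 * C * (N₀ : ℝ) ^ 2 * C₁) := by rw [hq]; exact min_le_left _ _
  have hqb : q ≤ 1 / (1 + C₂ ^ 2) := by rw [hq]; exact min_le_right _ _
  have hqb' : q * (1 + C₂ ^ 2) ≤ 1 := by
    rwa [le_div_iff₀ (by positivity)] at hqb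
  have hq1 : q ≤ 1 := by nlinarith [sq_nonneg C₂]
  refine ⟨q, hq0, ?_⟩
  intro n hn c hc
  have hn1 : (1 : ℝ) ≤ n := by exact_mod_cast hn
  have hn0 : (0 : ℝ) < n := by linarith
  have hlog : 0 ≤ log n := Real.log_nonneg hn1
  have hc1 : 1 ≤ c := one_le hα0 hn (hc ℝ)
  have hc0 : 0 < c := by linarith
  have hnα : 0 < (n : ℝ) ^ (α - 1 / 2) := Real.rpow_pos_of_pos hn0 _
  have hnα1 : (n : ℝ) ^ (α - 1 / 2) ≤ n := by
    conv_rhs => rw [← Real.rpow_one (n : ℝ)]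
    exact Real.rpow_le_rpow_of_exponent_le hn1 (by linarith)
  have hdiv : (n : ℝ) ^ (α - 1 / 2) / (1 + log n) ≤ n :=
    (div_le_self hnα.le (by linarith)).trans hnα1
  have hdiv0 : 0 ≤ (n : ℝ) ^ (α - 1 / 2) / (1 + log n) := by positivity
  rcases le_or_gt c n with hcn | hcn
  swap
  · calc q * ((n : ℝ) ^ (α - 1 / 2) / (1 + log n)) ≤ 1 * n :=
          mul_le_mul hq1 hdiv hdiv0 zero_le_one
      _ ≤ c := by linarith
  rcases le_or_gt (C₂ ^ 2) (9 * n) with hbig | hsmall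
  swap
  · calc q * ((n : ℝ) ^ (α - 1 / 2) / (1 + log n)) ≤ q * (1 + C₂ ^ 2) :=
          mul_le_mul_of_nonneg_left (by linarith) hq0.le
      _ ≤ 1 := hqb'
      _ ≤ c := hc1
  -- the radius
  have hDc : 0 < 1 / (D * c) := by positivity
  obtain ⟨r, hr⟩ : ∃ r : ℝ, r = (1 / (D * c)) ^ (1 / α) := ⟨_, rfl⟩
  have hr0 : 0 < r := by rw [hr]; exact Real.rpow_pos_of_pos hDc _
  have hrα : r ^ α = 1 / (D * c) := by
    rw [hr, ← Real.rpow_mul hDc.le, one_div_mul_cancel hα0.ne', Real.rpow_one]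
  have hDc1 : 1 / (D * c) ≤ 1 := by
    rw [div_le_one (by positivity)]
    nlinarith
  have hr1 : r ≤ 1 := by
    rw [hr]; exact Real.rpow_le_one hDc.le hDc1 (by positivity)
  obtain ⟨k, hk1, hk2⟩ := exists_nat_pow_near_of_lt_one hr0 hr1 (show (0 : ℝ) < 1 / 2 by
    norm_num) (by norm_num)
  change rk (k + 1) < r at hk1
  change r ≤ rk k at hk2
  have hk3 : rk k = 2 * rk (k + 1) := by unfold rk; rw [pow_succ]; ring
  -- the number of levels
  have hlk : (k : ℝ) * log 2 ≤ (log D + log c) / α := by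
    have h2 : log r ≤ log (rk k) := Real.log_le_log hr0 hk2
    have h3 : log (rk k) = -(k * log 2) := by
      unfold rk
      rw [Real.log_pow, one_div, Real.log_inv]
      ring
    have h4 : log r = -((log D + log c) / α) := by
      rw [hr, Real.log_rpow hDc, one_div (D * c), Real.log_inv, Real.log_mul hD0.ne' hc0.ne']
      ring
    rw [h3, h4] at h2
    linarith
  have hlc : log c ≤ log n := Real.log_le_log hc0 hcn
  have hl : ((k + 2 : ℕ) : ℝ) ≤ C₁ * (1 + log n) := by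
    have h2 : (k : ℝ) ≤ (log D + log n) / (α * log 2) := by
      rw [le_div_iff₀ (by positivity)]
      have h3 : (k : ℝ) * log 2 * α ≤ log D + log c := by
        rwa [le_div_iff₀ hα0] at hlk
      calc (k : ℝ) * (α * log 2) = k * log 2 * α := by ring
        _ ≤ log D + log c := h3
        _ ≤ _ := by linarith
    have h4 : (log D + log n) / (α * log 2) ≤ (1 + log D) / (α * log 2) * (1 + log n) := by
      rw [div_mul_eq_mul_div]
      refine div_le_div_of_nonneg_right ?_ (by positivity)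
      nlinarith [mul_nonneg hlD hlog]
    push_cast
    rw [hC₁, add_mul]
    linarith
  have hlog3 : 1 + log n ≤ 3 * √n := by
    have h2 := Real.log_le_rpow_div hn0.le (show (0 : ℝ) < 1 / 2 by norm_num)
    rw [← Real.sqrt_eq_rpow] at h2
    have h3 : 1 ≤ √(n : ℝ) := by
      rw [Real.le_sqrt (by norm_num) hn0.le]; linarith
    have h4 : √(n : ℝ) / (1 / 2) = 2 * √n := by ring
    linarith
  have hsq : C₂ ≤ 3 * √n := by
    have h2 : C₂ ^ 2 ≤ (3 * √n) ^ 2 := by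
      rw [mul_pow, Real.sq_sqrt hn0.le]; linarith
    exact (abs_le_of_sq_le_sq' h2 (by positivity)).2
  obtain ⟨A, hA1, hA2⟩ := hK n hn
  have hmain := corem (l := k + 2) hN₀ hκ hn A hA1
    hA2 h12 h1 hc0 (hc _) hr0 (by omega) (B := B)
    (by simpa using hk1.le) (by simpa [hk3] using hk2)
    (by
      rw [hrα, ← hC, mul_one_div, div_le_iff₀ (by positivity), hD]
      nlinarith)
    hB0 hQ
    (by
      push_cast
      have h2 : (m4 - 1) * ((k : ℝ) + 2) ≤ (1 + m4) * (C₁ * (1 + log n)) := by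
        have h3 : ((k : ℝ) + 2) ≤ C₁ * (1 + log n) := by exact_mod_cast hl
        have h4 : (0 : ℝ) ≤ (k : ℝ) + 2 := by positivity
        nlinarith
      have h5 : 20 * ((1 + B) * ((m4 - 1) * ((k : ℝ) + 2))) ≤ C₂ * (1 + log n) := by
        rw [hC₂]
        have := mul_le_mul_of_nonneg_left h2 (show 0 ≤ 20 * (1 + B) by positivity)
        linarith
      have h6 : C₂ * (1 + log n) ≤ 9 * n := by
        calc C₂ * (1 + log n) ≤ (3 * √n) * (3 * √n) :=
              mul_le_mul hsq hlog3 (by positivity) (by positivity)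
          _ = 9 * (√n * √n) := by ring
          _ = 9 * n := by rw [Real.mul_self_sqrt hn0.le]
      have h7 : (n : ℝ) ≤ N₀ * n := le_mul_of_one_le_left hn0.le hN01
      linarith)
  rw [← hC] at hmain
  have h9 : κ * (n : ℝ) ^ (α - 1 / 2) ≤ (8 * C * (N₀ : ℝ) ^ 2 * C₁) * (c * (1 + log n)) := by
    refine hmain.trans ?_
    calc 8 * C * (N₀ : ℝ) ^ 2 * (c * ((k + 2 : ℕ) : ℝ))
        ≤ 8 * C * (N₀ : ℝ) ^ 2 * (c * (C₁ * (1 + log n))) := by gcongr
      _ = _ := by ring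
  calc q * ((n : ℝ) ^ (α - 1 / 2) / (1 + log n))
      ≤ κ / (8 * C * (N₀ : ℝ) ^ 2 * C₁) * ((n : ℝ) ^ (α - 1 / 2) / (1 + log n)) :=
        mul_le_mul_of_nonneg_right hqa hdiv0
    _ ≤ c := by
        rw [div_mul_div_comm, div_le_iff₀ (by positivity)]
        linarith

end

end Pool.Agent.W2helper18.HX
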