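import Pool.Agent.W2helper18.HE.G1

/-!
# MP_e08f0b_an, lower bound: Gaussian integration by parts for Hölder maps, several noise levels
-/

open MeasureTheory ProbabilityTheory Real
open scoped RealInnerProductSpace ENNReal

namespace Pool.Agent.W2helper18.HX

open Pool.Agent.W2helper18.HE

noncomputable section

/-- the space of the Gaussian vectors -/
abbrev Omm (n : ℕ) (ι : Type) := EuclideanSpace ℝ (Fin n ⊕ ι)

/-- the target space -/
abbrev Vm (n : ℕ) := EuclideanSpace ℝ (Fin n)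

variable {n : ℕ} {ι : Type}

/-- the first `n` coordinates -/
def gm (ω : Omm n ι) : Vm n := WithLp.toLp 2 (fun i => ω (Sum.inl i))

/-- the random point of the big space -/
def XM (A : ι → (Vm n →L[ℝ] ℝ)) (ρ : ι → ℝ) (ω : Omm n ι) : ι → ℝ :=
  fun j => A j (gm ω) / √n + ρ j * ω (Sum.inr j)

/-- unit vectors of the target space -/
def em (i : Fin n) : Vm n := EuclideanSpace.single i (1 : ℝ)

theorem expandm (L : Vm n →L[ℝ] ℝ) (y : Vm n) : L y = ∑ i, y i * L (em i) := by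
  conv_lhs => rw [show y = ∑ i, y i • em i by
    ext k
    simp [em, Pi.single_apply]]
  rw [map_sum]
  simp

variable [DecidableEq ι]

/-- the vectors defining `XM` -/
def avm (A : ι → (Vm n →L[ℝ] ℝ)) (ρ : ι → ℝ) (j : ι) : Omm n ι :=
  WithLp.toLp 2 (Sum.elim (fun i => A j (em i) / √n) (fun k => if k = j then ρ j else 0))

/-- the vectors orthogonal to them -/
def zvm (A : ι → (Vm n →L[ℝ] ℝ)) (ρ : ι → ℝ) (i : Fin n) : Omm n ι :=
  WithLp.toLp 2 (Sum.elim (fun k => if k = i then √n else 0) (fun j => -(A j (em i) / ρ j)))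

variable [Fintype ι]

theorem avm_inner (A : ι → (Vm n →L[ℝ] ℝ)) (ρ : ι → ℝ) (j : ι) (ω : Omm n ι) :
    ⟪avm A ρ j, ω⟫ = XM A ρ ω j := by
  rw [PiLp.inner_apply, Fintype.sum_sum_type, XM, expandm (A j) (gm ω)]
  simp only [avm, Sum.elim_inl, Sum.elim_inr, RCLike.inner_apply, conj_trivial, gm]
  congr 1
  · rw [Finset.sum_div]
    exact Finset.sum_congr rfl fun i _ => by ring
  · simp [mul_comm]

theorem zvm_inner (A : ι → (Vm n →L[ℝ] ℝ)) (ρ : ι → ℝ) (i : Fin n) (ω : Omm n ι) :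
    ⟪zvm A ρ i, ω⟫ = √n * gm ω i - ∑ j, (ρ j)⁻¹ * (ω (Sum.inr j) * A j (em i)) := by
  rw [PiLp.inner_apply, Fintype.sum_sum_type]
  simp only [zvm, Sum.elim_inl, Sum.elim_inr, RCLike.inner_apply, conj_trivial, gm]
  rw [sub_eq_add_neg]
  congr 1
  · simp [mul_comm]
  · rw [← Finset.sum_neg_distrib]
    exact Finset.sum_congr rfl fun j _ => by ring

theorem avm_zvm (hn : 1 ≤ n) (A : ι → (Vm n →L[ℝ] ℝ)) {ρ : ι → ℝ} (hρ : ∀ j, 0 < ρ j) (j : ι)
    (i : Fin n) : ⟪avm A ρ j, zvm A ρ i⟫ = 0 := by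
  have hn0 : (0 : ℝ) < √n := Real.sqrt_pos.2 (by exact_mod_cast hn)
  have hj := hρ j
  rw [PiLp.inner_apply, Fintype.sum_sum_type]
  simp only [avm, zvm, Sum.elim_inl, Sum.elim_inr, RCLike.inner_apply, conj_trivial]
  have h1 : ∑ x, (if x = i then √(n : ℝ) else 0) * (A j (em x) / √n) = A j (em i) := by
    simp only [ite_mul, zero_mul, Finset.sum_ite_eq', Finset.mem_univ, if_true]
    field_simp
  have h2 : ∑ x, -(A x (em i) / ρ x) * (if x = j then ρ j else 0) = -A j (em i) := by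
    simp only [mul_ite, mul_zero, Finset.sum_ite_eq', Finset.mem_univ, if_true]
    field_simp
  rw [h1, h2]
  ring

theorem sum_idm (A : ι → (Vm n →L[ℝ] ℝ)) (ρ : ι → ℝ) (y : Vm n) (ω : Omm n ι) :
    ∑ i, y i * ⟪zvm A ρ i, ω⟫ =
      √n * ⟪y, gm ω⟫ - ∑ j, (ρ j)⁻¹ * (ω (Sum.inr j) * A j y) := by
  simp only [zvm_inner, mul_sub, Finset.sum_sub_distrib]
  congr 1
  · rw [PiLp.inner_apply, Finset.mul_sum]
    refine Finset.sum_congr rfl fun i _ => ?_
    simp only [RCLike.inner_apply, conj_trivial]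
    ring
  · simp_rw [expandm (A _) y, Finset.mul_sum]
    rw [Finset.sum_comm]
    refine Finset.sum_congr rfl fun i _ => Finset.sum_congr rfl fun j _ => by ring

/-- the Gaussian measure -/
abbrev PM (n : ℕ) (ι : Type) [Fintype ι] : Measure (Omm n ι) := stdGaussian (Omm n ι)

omit [DecidableEq ι] [Fintype ι] in
theorem gm_cont : Continuous (gm : Omm n ι → Vm n) := by
  unfold gm
  fun_prop

omit [DecidableEq ι] [Fintype ι] in
theorem XM_cont (A : ι → (Vm n →L[ℝ] ℝ)) (ρ : ι → ℝ) : Continuous (XM A ρ : Omm n ι → _) := by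
  unfold XM
  have := gm_cont (n := n) (ι := ι)
  fun_prop

omit [DecidableEq ι] in
/-- bounded times linear is integrable -/
theorem int_bddm {f : Omm n ι → ℝ} (hf : Continuous f) {R : ℝ} (hR : ∀ ω, |f ω| ≤ R)
    (L : Omm n ι →L[ℝ] ℝ) : Integrable (fun ω => f ω * L ω) (PM n ι) := by
  have h1 : Integrable (fun ω => L ω) (PM n ι) :=
    L.integrable_comp IsGaussian.integrable_id
  refine (h1.norm.const_mul R).mono' (hf.mul L.continuous).aestronglyMeasurable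
    (Filter.Eventually.of_forall fun ω => ?_)
  rw [norm_mul, Real.norm_eq_abs]
  exact mul_le_mul_of_nonneg_right (hR ω) (norm_nonneg _)

/-- the coordinate functional -/
def ccm (k : Fin n ⊕ ι) : Omm n ι →L[ℝ] ℝ := innerSL ℝ (EuclideanSpace.single k (1 : ℝ))

theorem ccm_apply (k : Fin n ⊕ ι) (ω : Omm n ι) : ccm k ω = ω k := by
  rw [ccm, innerSL_apply_apply, EuclideanSpace.inner_single_left]
  simp

theorem comp_lem (y : Vm n) (i : Fin n) : |y i| ≤ ‖y‖ := by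
  have := PiLp.norm_apply_le y i
  simpa using this

theorem int_inner (A : ι → (Vm n →L[ℝ] ℝ)) {ρ : ι → ℝ}
    (ψ : (ι → ℝ) → Vm n) (hψ : Continuous ψ) {R : ℝ} (hR : ∀ x, ‖ψ x‖ ≤ R) :
    Integrable (fun ω => ⟪ψ (XM A ρ ω), gm ω⟫) (PM n ι) := by
  have hX := XM_cont (n := n) (ι := ι) A ρ
  have hψX : Continuous fun ω : Omm n ι => ψ (XM A ρ ω) := hψ.comp hX
  have : ∀ i : Fin n, Integrable (fun ω => (ψ (XM A ρ ω)) i * gm ω i) (PM n ι) := by
    intro i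
    have := int_bddm (f := fun ω => (ψ (XM A ρ ω)) i) (by fun_prop)
      (fun ω => (comp_lem _ i).trans (hR _)) (ccm (Sum.inl i : Fin n ⊕ ι))
    refine this.congr (Filter.Eventually.of_forall fun ω => ?_)
    simp only [ccm_apply]
    rfl
  refine (integrable_finsetSum Finset.univ fun i _ => this i).congr
    (Filter.Eventually.of_forall fun ω => ?_)
  simp only [PiLp.inner_apply, RCLike.inner_apply, conj_trivial]
  exact Finset.sum_congr rfl fun i _ => mul_comm _ _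

theorem int_dir (A : ι → (Vm n →L[ℝ] ℝ)) {ρ : ι → ℝ}
    (ψ : (ι → ℝ) → Vm n) (hψ : Continuous ψ) {R : ℝ} (hR : ∀ x, ‖ψ x‖ ≤ R) (j : ι) :
    Integrable (fun ω => ω (Sum.inr j) * A j (ψ (XM A ρ ω))) (PM n ι) := by
  have hX := XM_cont (n := n) (ι := ι) A ρ
  have hψX : Continuous fun ω : Omm n ι => ψ (XM A ρ ω) := hψ.comp hX
  have := int_bddm (f := fun ω => A j (ψ (XM A ρ ω))) (by fun_prop) (R := ‖A j‖ * R)
    (fun ω => ((A j).le_opNorm _).trans (mul_le_mul_of_nonneg_left (hR _) (norm_nonneg _)))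
    (ccm (Sum.inr j))
  refine this.congr (Filter.Eventually.of_forall fun ω => ?_)
  simp only [ccm_apply]
  ring

/-- integration by parts -/
theorem ibpm (hn : 1 ≤ n) (A : ι → (Vm n →L[ℝ] ℝ)) {ρ : ι → ℝ} (hρ : ∀ j, 0 < ρ j)
    (ψ : (ι → ℝ) → Vm n) (hψ : Continuous ψ) {R : ℝ} (hR : ∀ x, ‖ψ x‖ ≤ R) :
    √n * ∫ ω, ⟪ψ (XM A ρ ω), gm ω⟫ ∂(PM n ι) =
      ∑ j, (ρ j)⁻¹ * ∫ ω, ω (Sum.inr j) * A j (ψ (XM A ρ ω)) ∂(PM n ι) := by
  have hX := XM_cont (n := n) (ι := ι) A ρ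
  have hψX : Continuous fun ω : Omm n ι => ψ (XM A ρ ω) := hψ.comp hX
  have h0 : ∀ i : Fin n, ∫ ω, (ψ (XM A ρ ω)) i * ⟪zvm A ρ i, ω⟫ ∂(PM n ι) = 0 := by
    intro i
    have := orth_int (zvm A ρ i) (avm A ρ) (fun j => avm_zvm hn A hρ j i) (fun x => (ψ x) i)
      (by
        have : Continuous fun x => (ψ x) i := by fun_prop
        exact this.measurable)
    simp only [avm_inner] at this
    exact this
  have hi0 : ∀ i : Fin n, Integrable (fun ω => (ψ (XM A ρ ω)) i * ⟪zvm A ρ i, ω⟫) (PM n ι) := by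
    intro i
    exact int_bddm (f := fun ω => (ψ (XM A ρ ω)) i) (by fun_prop)
      (fun ω => (comp_lem _ i).trans (hR _)) (innerSL ℝ (zvm A ρ i))
  have hi1 := int_dir A (ρ := ρ) ψ hψ hR
  have hi2 := int_inner A (ρ := ρ) ψ hψ hR
  have h1 : ∫ ω, ∑ i, (ψ (XM A ρ ω)) i * ⟪zvm A ρ i, ω⟫ ∂(PM n ι) = 0 := by
    rw [integral_finsetSum _ fun i _ => hi0 i]
    exact Finset.sum_eq_zero fun i _ => h0 i
  simp only [sum_idm] at h1
  rw [integral_sub (hi2.const_mul _) (integrable_finsetSum _ fun j _ => (hi1 j).const_mul _),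
    integral_const_mul, integral_finsetSum _ fun j _ => (hi1 j).const_mul _] at h1
  simp only [integral_const_mul] at h1
  linarith

/-- the reflection of one coordinate -/
def taum (j : ι) : Omm n ι ≃ₗᵢ[ℝ] Omm n ι :=
  LinearIsometryEquiv.piLpCongrRight 2 (fun k : Fin n ⊕ ι =>
    if k = Sum.inr j then LinearIsometryEquiv.neg ℝ else LinearIsometryEquiv.refl ℝ ℝ)

theorem taum_same (j : ι) (ω : Omm n ι) : taum j ω (Sum.inr j) = -ω (Sum.inr j) := by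
  simp [taum]

theorem taum_other (j : ι) (ω : Omm n ι) {k : Fin n ⊕ ι} (hk : k ≠ Sum.inr j) :
    taum j ω k = ω k := by
  simp [taum, hk]

theorem pow_le_one_add_sqm {x α : ℝ} (hx : 0 ≤ x) (h0 : 0 ≤ α) (h1 : α ≤ 1) :
    x * x ^ α ≤ 1 + x ^ 2 := by
  rcases le_total x 1 with h | h
  · have h2 : x ^ α ≤ 1 := Real.rpow_le_one hx h h0
    have h3 : x * x ^ α ≤ 1 * 1 := mul_le_mul h h2 (Real.rpow_nonneg hx _) (by norm_num)
    nlinarith
  · have h2 : x ^ α ≤ x ^ (1 : ℝ) := Real.rpow_le_rpow_of_exponent_le h h1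
    rw [Real.rpow_one] at h2
    nlinarith

/-- one coordinate direction contributes little -/
theorem one_dirm (A : ι → (Vm n →L[ℝ] ℝ)) {ρ : ι → ℝ} (hρ : ∀ j, 0 < ρ j)
    (ψ : (ι → ℝ) → Vm n) (hψ : Continuous ψ) {R : ℝ} (hR : ∀ x, ‖ψ x‖ ≤ R)
    {K α : ℝ} (hK : 0 ≤ K) (h0 : 0 ≤ α) (h1 : α ≤ 1)
    (hH : ∀ x y : ι → ℝ, ∀ j, (∀ k, k ≠ j → x k = y k) → ‖ψ x - ψ y‖ ≤ K * |x j - y j| ^ α)
    (j : ι) :
    |∫ ω, ω (Sum.inr j) * A j (ψ (XM A ρ ω)) ∂(PM n ι)| ≤ ‖A j‖ * (K * (2 * ρ j) ^ α) := by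
  have hρj := hρ j
  have hX := XM_cont (n := n) (ι := ι) A ρ
  have hψX : Continuous fun ω : Omm n ι => ψ (XM A ρ ω) := hψ.comp hX
  have hi1 := int_dir A (ρ := ρ) ψ hψ hR j
  have hmp : MeasurePreserving (taum (n := n) j) (PM n ι) (PM n ι) :=
    ⟨(taum j).continuous.measurable, stdGaussian_map (taum j)⟩
  have hi2 : Integrable (fun ω => taum j ω (Sum.inr j) * A j (ψ (XM A ρ (taum j ω)))) (PM n ι) :=
    hmp.integrable_comp_of_integrable hi1
  have hE : ∫ ω, taum j ω (Sum.inr j) * A j (ψ (XM A ρ (taum j ω))) ∂(PM n ι) =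
      ∫ ω, ω (Sum.inr j) * A j (ψ (XM A ρ ω)) ∂(PM n ι) := by
    have := hmp.integral_comp (taum (n := n) (ι := ι) j).toHomeomorph.measurableEmbedding
      (fun ω => ω (Sum.inr j) * A j (ψ (XM A ρ ω)))
    exact this
  have hsum : 2 * ∫ ω, ω (Sum.inr j) * A j (ψ (XM A ρ ω)) ∂(PM n ι) =
      ∫ ω, (ω (Sum.inr j) * A j (ψ (XM A ρ ω)) +
        taum j ω (Sum.inr j) * A j (ψ (XM A ρ (taum j ω)))) ∂(PM n ι) := by
    rw [integral_add hi1 hi2, hE]
    ring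
  have hpt : ∀ ω : Omm n ι, |ω (Sum.inr j) * A j (ψ (XM A ρ ω)) +
        taum j ω (Sum.inr j) * A j (ψ (XM A ρ (taum j ω)))| ≤
        ‖A j‖ * (K * (2 * ρ j) ^ α) * (1 + (ω (Sum.inr j)) ^ 2) := by
    intro ω
    rw [taum_same]
    have e1 : ω (Sum.inr j) * A j (ψ (XM A ρ ω)) +
        -ω (Sum.inr j) * A j (ψ (XM A ρ (taum j ω))) =
        ω (Sum.inr j) * A j (ψ (XM A ρ ω) - ψ (XM A ρ (taum j ω))) := by
      rw [map_sub]; ring
    rw [e1, abs_mul]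
    have hgg : gm (taum j ω) = gm ω := by
      unfold gm
      congr 1
    have h2 : ‖ψ (XM A ρ ω) - ψ (XM A ρ (taum j ω))‖ ≤
        K * (2 * ρ j * |ω (Sum.inr j)|) ^ α := by
      refine (hH _ _ j ?_).trans (le_of_eq ?_)
      · intro k hk
        unfold XM
        rw [hgg, taum_other j ω (by simpa using hk)]
      · congr 2
        unfold XM
        rw [hgg, taum_same]
        rw [show A j (gm ω) / √n + ρ j * ω (Sum.inr j) -
          (A j (gm ω) / √n + ρ j * -ω (Sum.inr j)) =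
          2 * ρ j * ω (Sum.inr j) by ring, abs_mul, abs_of_pos (by positivity)]
    have h3 : |A j (ψ (XM A ρ ω) - ψ (XM A ρ (taum j ω)))| ≤
        ‖A j‖ * (K * (2 * ρ j * |ω (Sum.inr j)|) ^ α) :=
      ((A j).le_opNorm _).trans (mul_le_mul_of_nonneg_left h2 (norm_nonneg _))
    calc |ω (Sum.inr j)| * |A j (ψ (XM A ρ ω) - ψ (XM A ρ (taum j ω)))|
        ≤ |ω (Sum.inr j)| * (‖A j‖ * (K * (2 * ρ j * |ω (Sum.inr j)|) ^ α)) :=
          mul_le_mul_of_nonneg_left h3 (abs_nonneg _)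
      _ = ‖A j‖ * (K * (2 * ρ j) ^ α) * (|ω (Sum.inr j)| * |ω (Sum.inr j)| ^ α) := by
          rw [Real.mul_rpow (by positivity) (abs_nonneg _)]; ring
      _ ≤ ‖A j‖ * (K * (2 * ρ j) ^ α) * (1 + |ω (Sum.inr j)| ^ 2) :=
          mul_le_mul_of_nonneg_left (pow_le_one_add_sqm (abs_nonneg _) h0 h1) (by positivity)
      _ = _ := by rw [sq_abs]
  have hi3 : Integrable (fun ω : Omm n ι => (1 : ℝ) + (ω (Sum.inr j)) ^ 2) (PM n ι) :=
    (integrable_const 1).add (coord_integrable (Sum.inr j) (fun x => x ^ 2) (pow_integrable 2))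
  have hv : ∫ ω : Omm n ι, ((1 : ℝ) + (ω (Sum.inr j)) ^ 2) ∂(PM n ι) = 2 := by
    rw [integral_add (integrable_const 1)
      (coord_integrable (Sum.inr j) (fun x => x ^ 2) (pow_integrable 2)),
      coord_int (Sum.inr j) (fun x => x ^ 2) (by fun_prop), m2_eq]
    simp only [integral_const, probReal_univ, smul_eq_mul, one_mul]
    norm_num
  have h4 : |∫ ω, (ω (Sum.inr j) * A j (ψ (XM A ρ ω)) +
        taum j ω (Sum.inr j) * A j (ψ (XM A ρ (taum j ω)))) ∂(PM n ι)| ≤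
        ‖A j‖ * (K * (2 * ρ j) ^ α) * 2 := by
    have h5 : ‖A j‖ * (K * (2 * ρ j) ^ α) * 2 =
        ∫ ω : Omm n ι, ‖A j‖ * (K * (2 * ρ j) ^ α) * ((1 : ℝ) + (ω (Sum.inr j)) ^ 2)
          ∂(PM n ι) := by
      rw [integral_const_mul, hv]
    rw [h5]
    refine abs_integral_le_integral_abs.trans ?_
    exact integral_mono (hi1.add hi2).abs (hi3.const_mul _) hpt
  rw [← hsum, abs_mul, abs_of_pos (by norm_num : (0 : ℝ) < 2)] at h4
  linarith

/-- the upper bound -/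
theorem upperm (hn : 1 ≤ n) (A : ι → (Vm n →L[ℝ] ℝ)) {ρ : ι → ℝ} (hρ : ∀ j, 0 < ρ j)
    (ψ : (ι → ℝ) → Vm n) (hψ : Continuous ψ) {R : ℝ} (hR : ∀ x, ‖ψ x‖ ≤ R)
    {K α : ℝ} (hK : 0 ≤ K) (h0 : 0 ≤ α) (h1 : α ≤ 1)
    (hH : ∀ x y : ι → ℝ, ∀ j, (∀ k, k ≠ j → x k = y k) → ‖ψ x - ψ y‖ ≤ K * |x j - y j| ^ α) :
    √n * ∫ ω, ⟪ψ (XM A ρ ω), gm ω⟫ ∂(PM n ι) ≤
      ∑ j, (ρ j)⁻¹ * (‖A j‖ * (K * (2 * ρ j) ^ α)) := by
  rw [ibpm hn A hρ ψ hψ hR]
  refine Finset.sum_le_sum fun j _ => mul_le_mul_of_nonneg_left ?_ (inv_pos.2 (hρ j)).le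
  exact (le_abs_self _).trans (one_dirm A hρ ψ hψ hR hK h0 h1 hH j)

end

end Pool.Agent.W2helper18.HX
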