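import Pool.Agent.W2helper18.HX.LoA
import Pool.Agent.W2helper18.HE.G3

/-!
# MP_e08f0b_an, lower bound: moments of products of coordinates
-/

open MeasureTheory ProbabilityTheory Real
open scoped RealInnerProductSpace ENNReal

namespace Pool.Agent.W2helper18.HX

open Pool.Agent.W2helper18.HE

noncomputable section

variable {I : Type} [Fintype I] [DecidableEq I]

theorem prod_int (f : I → ℝ → ℝ) (hf : ∀ k, Measurable (f k)) :
    ∫ ω : EuclideanSpace ℝ I, ∏ k, f k (ω k) ∂(stdGaussian (EuclideanSpace ℝ I)) =
      ∏ k, ∫ x, f k x ∂(gaussianReal 0 1) := by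
  have hm : Measurable fun ω : EuclideanSpace ℝ I => ∏ k, f k (ω k) :=
    Finset.measurable_prod _ fun k _ => (hf k).comp (by fun_prop)
  rw [← map_pi_eq_stdGaussian, integral_map (by fun_prop) hm.aestronglyMeasurable]
  exact integral_fintype_prod_eq_prod (fun k x => f k x)

theorem prod_integrable (f : I → ℝ → ℝ) (hf : ∀ k, Integrable (f k) (gaussianReal 0 1))
    (hm : ∀ k, Measurable (f k)) :
    Integrable (fun ω : EuclideanSpace ℝ I => ∏ k, f k (ω k))
      (stdGaussian (EuclideanSpace ℝ I)) := by
  have hm : Measurable fun ω : EuclideanSpace ℝ I => ∏ k, f k (ω k) :=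
    Finset.measurable_prod _ fun k _ => (hm k).comp (by fun_prop)
  rw [← map_pi_eq_stdGaussian, integrable_map_measure hm.aestronglyMeasurable (by fun_prop)]
  exact Integrable.fintype_prod hf

/-- three functions of three coordinates -/
def tri (p q r : I) (u v w : ℝ → ℝ) (k : I) (x : ℝ) : ℝ :=
  (if k = p then u x else 1) * (if k = q then v x else 1) * (if k = r then w x else 1)

theorem tri_prod (p q r : I) (u v w : ℝ → ℝ) (ω : I → ℝ) :
    ∏ k, tri p q r u v w k (ω k) = u (ω p) * v (ω q) * w (ω r) := by
  unfold tri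
  rw [Finset.prod_mul_distrib, Finset.prod_mul_distrib]
  simp

theorem ite_meas (c : Prop) [Decidable c] {u : ℝ → ℝ} (hu : Measurable u) :
    Measurable fun x => if c then u x else 1 := by
  by_cases h : c
  · simpa [h] using hu
  · simp [h]

theorem tri_meas (p q r : I) {u v w : ℝ → ℝ} (hu : Measurable u) (hv : Measurable v)
    (hw : Measurable w) (k : I) : Measurable (tri p q r u v w k) :=
  ((ite_meas _ hu).mul (ite_meas _ hv)).mul (ite_meas _ hw)

theorem tri_one {p q r : I} (hpq : p ≠ q) (hpr : p ≠ r) (hqr : q ≠ r) (u v w : ℝ → ℝ) (k : I) :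
    ∫ x, tri p q r u v w k x ∂(gaussianReal 0 1) =
      (if k = p then ∫ x, u x ∂(gaussianReal 0 1) else 1) *
      (if k = q then ∫ x, v x ∂(gaussianReal 0 1) else 1) *
      (if k = r then ∫ x, w x ∂(gaussianReal 0 1) else 1) := by
  unfold tri
  by_cases h1 : k = p
  · subst h1
    simp [hpq, hpr]
  by_cases h2 : k = q
  · subst h2
    simp [hpq.symm, hqr]
  by_cases h3 : k = r
  · subst h3
    simp [hpr.symm, hqr.symm]
  simp [h1, h2, h3]

theorem tri_int {p q r : I} (hpq : p ≠ q) (hpr : p ≠ r) (hqr : q ≠ r) {u v w : ℝ → ℝ}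
    (hu : Measurable u) (hv : Measurable v) (hw : Measurable w) :
    ∫ ω : EuclideanSpace ℝ I, u (ω p) * v (ω q) * w (ω r) ∂(stdGaussian (EuclideanSpace ℝ I)) =
      (∫ x, u x ∂(gaussianReal 0 1)) * (∫ x, v x ∂(gaussianReal 0 1)) *
        (∫ x, w x ∂(gaussianReal 0 1)) := by
  have h := prod_int (tri p q r u v w) (tri_meas p q r hu hv hw)
  have h2 : ∀ ω : EuclideanSpace ℝ I, ∏ k, tri p q r u v w k (ω k) =
      u (ω p) * v (ω q) * w (ω r) := fun ω => tri_prod p q r u v w (fun k => ω k)
  simp only [h2, tri_one hpq hpr hqr] at h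
  rw [h, Finset.prod_mul_distrib, Finset.prod_mul_distrib]
  simp

theorem tri_integrable {p q r : I} (hpq : p ≠ q) (hpr : p ≠ r) (hqr : q ≠ r) {u v w : ℝ → ℝ}
    (hu : Measurable u) (hv : Measurable v) (hw : Measurable w)
    (iu : Integrable u (gaussianReal 0 1)) (iv : Integrable v (gaussianReal 0 1))
    (iw : Integrable w (gaussianReal 0 1)) :
    Integrable (fun ω : EuclideanSpace ℝ I => u (ω p) * v (ω q) * w (ω r))
      (stdGaussian (EuclideanSpace ℝ I)) := by
  have h := prod_integrable (tri p q r u v w) (fun k => ?_) (tri_meas p q r hu hv hw)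
  · refine h.congr (Filter.Eventually.of_forall fun ω => ?_)
    exact tri_prod p q r u v w (fun k => ω k)
  · unfold tri
    by_cases h1 : k = p
    · subst h1
      simpa [hpq, hpr] using iu
    by_cases h2 : k = q
    · subst h2
      simpa [hpq.symm, hqr] using iv
    by_cases h3 : k = r
    · subst h3
      simpa [hpr.symm, hqr.symm] using iw
    simp [h1, h2, h3]

/-- two functions of two coordinates -/
theorem pair_int {p q : I} (hpq : p ≠ q) {u v : ℝ → ℝ}
    (hu : Measurable u) (hv : Measurable v) :
    ∫ ω : EuclideanSpace ℝ I, u (ω p) * v (ω q) ∂(stdGaussian (EuclideanSpace ℝ I)) =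
      (∫ x, u x ∂(gaussianReal 0 1)) * (∫ x, v x ∂(gaussianReal 0 1)) := by
  have h := prod_int (fun k x => (if k = p then u x else 1) * (if k = q then v x else 1))
    (fun k => (ite_meas _ hu).mul (ite_meas _ hv))
  have h2 : ∀ ω : EuclideanSpace ℝ I, ∏ k, ((if k = p then u (ω k) else 1) *
      (if k = q then v (ω k) else 1)) = u (ω p) * v (ω q) := fun ω => by
    rw [Finset.prod_mul_distrib]
    simp
  have h3 : ∀ k, ∫ x, ((if k = p then u x else 1) * (if k = q then v x else 1))
      ∂(gaussianReal 0 1) = (if k = p then ∫ x, u x ∂(gaussianReal 0 1) else 1) *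
      (if k = q then ∫ x, v x ∂(gaussianReal 0 1) else 1) := by
    intro k
    by_cases h1 : k = p
    · subst h1
      simp [hpq]
    by_cases h2 : k = q
    · subst h2
      simp [hpq.symm]
    simp [h1, h2]
  simp only [h2, h3] at h
  rw [h, Finset.prod_mul_distrib]
  simp

theorem pair_integrable {p q : I} (hpq : p ≠ q) {u v : ℝ → ℝ}
    (hu : Measurable u) (hv : Measurable v)
    (iu : Integrable u (gaussianReal 0 1)) (iv : Integrable v (gaussianReal 0 1)) :
    Integrable (fun ω : EuclideanSpace ℝ I => u (ω p) * v (ω q))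
      (stdGaussian (EuclideanSpace ℝ I)) := by
  have h := prod_integrable (I := I)
    (fun k x => (if k = p then u x else 1) * (if k = q then v x else 1))
    (fun k => ?_) (fun k => (ite_meas _ hu).mul (ite_meas _ hv))
  · refine h.congr (Filter.Eventually.of_forall fun ω => ?_)
    simp only
    rw [Finset.prod_mul_distrib]
    simp
  · by_cases h1 : k = p
    · subst h1
      simpa [hpq] using iu
    by_cases h2 : k = q
    · subst h2
      simpa [hpq.symm] using iv
    simp [h1, h2]

/-- the polynomials used -/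
def pu (x : ℝ) : ℝ := 1 + x ^ 2
def pv (x : ℝ) : ℝ := x ^ 2 - 1
def pw (x : ℝ) : ℝ := (x ^ 2 - 1) ^ 2

theorem pu_meas : Measurable pu := by unfold pu; fun_prop
theorem pv_meas : Measurable pv := by unfold pv; fun_prop
theorem pw_meas : Measurable pw := by unfold pw; fun_prop

theorem pu_int : Integrable pu (gaussianReal 0 1) := (integrable_const 1).add (pow_integrable 2)
theorem pv_int : Integrable pv (gaussianReal 0 1) := (pow_integrable 2).sub (integrable_const 1)
theorem pw_int : Integrable pw (gaussianReal 0 1) := by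
  have h := ((pow_integrable 4).sub ((pow_integrable 2).const_mul 2)).add
    (integrable_const (1 : ℝ))
  refine h.congr (Filter.Eventually.of_forall fun x => ?_)
  simp only [Pi.add_apply, Pi.sub_apply, pw]
  ring

theorem pu_val : ∫ x, pu x ∂(gaussianReal 0 1) = 2 := by
  unfold pu
  rw [integral_add (integrable_const 1) (pow_integrable 2), m2_eq]
  simp only [integral_const, probReal_univ, smul_eq_mul, one_mul]
  norm_num

theorem pv_val : ∫ x, pv x ∂(gaussianReal 0 1) = 0 := by
  unfold pv
  rw [integral_sub (pow_integrable 2) (integrable_const 1), m2_eq]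
  simp

theorem pw_val : ∫ x, pw x ∂(gaussianReal 0 1) = m4 - 1 := by
  have h : ∀ x : ℝ, pw x = x ^ 4 - 2 * x ^ 2 + 1 := fun x => by unfold pw; ring
  simp only [h]
  have i2 : Integrable (fun x : ℝ => 2 * x ^ 2) (gaussianReal 0 1) :=
    (pow_integrable 2).const_mul 2
  have i3 : Integrable (fun x : ℝ => x ^ 4 - 2 * x ^ 2) (gaussianReal 0 1) :=
    (pow_integrable 4).sub i2
  rw [integral_add i3 (integrable_const 1), integral_sub (pow_integrable 4) i2,
    integral_const_mul, m2_eq]
  simp only [integral_const, probReal_univ, smul_eq_mul, one_mul, m4]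
  ring

end

end Pool.Agent.W2helper18.HX
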