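import Pool.Agent.W2helper18.HX.LoB

/-!
# MP_e08f0b_an, lower bound: the correlation of the extension with the Gaussian vector
-/

open MeasureTheory ProbabilityTheory Real
open scoped RealInnerProductSpace ENNReal

namespace Pool.Agent.W2helper18.HX

open Pool.Agent.W2helper18.HE

noncomputable section

variable {n l N : ℕ}

/-- average of the `k`-th powers of the first coordinates -/
def al (k : ℕ) (ω : Omm n (Fin l × Fin N)) : ℝ := (∑ i : Fin n, ω (Sum.inl i) ^ k) / n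

/-- average of the squares of the coordinates of level `k` -/
def sk (k : Fin l) (ω : Omm n (Fin l × Fin N)) : ℝ := (∑ j : Fin N, ω (Sum.inr (k, j)) ^ 2) / N

theorem al_int (k : ℕ) : Integrable (al k : Omm n (Fin l × Fin N) → ℝ) (PM n _) := by
  unfold al
  exact (integrable_finsetSum _ fun i _ =>
    coord_integrable (Sum.inl i) (fun x => x ^ k) (pow_integrable k)).div_const _

theorem al_val (hn : 1 ≤ n) (k : ℕ) :
    ∫ ω : Omm n (Fin l × Fin N), al k ω ∂(PM n _) = ∫ x, x ^ k ∂(gaussianReal 0 1) := by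
  have hn0 : (n : ℝ) ≠ 0 := by exact_mod_cast (by omega : n ≠ 0)
  unfold al
  rw [integral_div, integral_finsetSum _ fun i _ =>
    coord_integrable (Sum.inl i) (fun x => x ^ k) (pow_integrable k)]
  rw [Finset.sum_congr rfl fun i _ => coord_int (Sum.inl i) (fun x => x ^ k) (by fun_prop)]
  simp
  field_simp

/-- one term of the product -/
def TT (k : Fin l) (i : Fin n) (j j' : Fin N) (ω : Omm n (Fin l × Fin N)) : ℝ :=
  pu (ω (Sum.inl i)) * pv (ω (Sum.inr (k, j))) * pv (ω (Sum.inr (k, j')))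

theorem TT_eq (k : Fin l) (i : Fin n) (j : Fin N) (ω : Omm n (Fin l × Fin N)) :
    TT k i j j ω = pu (ω (Sum.inl i)) * pw (ω (Sum.inr (k, j))) := by
  unfold TT pw pv
  ring

theorem TT_int (k : Fin l) (i : Fin n) (j j' : Fin N) :
    Integrable (TT k i j j' : Omm n (Fin l × Fin N) → ℝ) (PM n _) := by
  by_cases h : j = j'
  · subst h
    have h2 := pair_integrable (I := Fin n ⊕ (Fin l × Fin N)) (p := Sum.inl i)
      (q := Sum.inr (k, j)) (by simp) pu_meas pw_meas pu_int pw_int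
    exact h2.congr (Filter.Eventually.of_forall fun ω => (TT_eq k i j ω).symm)
  · exact tri_integrable (I := Fin n ⊕ (Fin l × Fin N)) (p := Sum.inl i)
      (q := Sum.inr (k, j)) (r := Sum.inr (k, j')) (by simp) (by simp) (by simpa using h)
      pu_meas pv_meas pv_meas pu_int pv_int pv_int

theorem TT_val (k : Fin l) (i : Fin n) (j j' : Fin N) :
    ∫ ω, TT k i j j' ω ∂(PM n (Fin l × Fin N)) = if j = j' then 2 * (m4 - 1) else 0 := by
  by_cases h : j = j'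
  · subst h
    rw [if_pos rfl]
    simp only [TT_eq]
    have h2 := pair_int (I := Fin n ⊕ (Fin l × Fin N)) (p := Sum.inl i)
      (q := Sum.inr (k, j)) (by simp) pu_meas pw_meas
    rw [h2, pu_val, pw_val]
  · rw [if_neg h]
    have h2 := tri_int (I := Fin n ⊕ (Fin l × Fin N)) (p := Sum.inl i)
      (q := Sum.inr (k, j)) (r := Sum.inr (k, j')) (by simp) (by simp) (by simpa using h)
      pu_meas pv_meas pv_meas
    unfold TT
    rw [h2, pv_val]
    ring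

theorem cross_eq (hn : 1 ≤ n) (hN : 1 ≤ N) (k : Fin l) (ω : Omm n (Fin l × Fin N)) :
    (1 + al 2 ω) * (sk k ω - 1) ^ 2 =
      ((n : ℝ) * N ^ 2)⁻¹ * ∑ i, ∑ j, ∑ j', TT k i j j' ω := by
  have hn0 : (0 : ℝ) < n := by exact_mod_cast hn
  have hN0 : (0 : ℝ) < N := by exact_mod_cast hN
  have e1 : ∑ i, ∑ j, ∑ j', TT k i j j' ω =
      (∑ i : Fin n, pu (ω (Sum.inl i))) * ((∑ j : Fin N, pv (ω (Sum.inr (k, j)))) *
        ∑ j : Fin N, pv (ω (Sum.inr (k, j)))) := by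
    unfold TT
    rw [Finset.sum_mul]
    refine Finset.sum_congr rfl fun i _ => ?_
    rw [Finset.sum_mul_sum, Finset.mul_sum]
    refine Finset.sum_congr rfl fun j _ => ?_
    rw [Finset.mul_sum]
    exact Finset.sum_congr rfl fun j' _ => by ring
  have e2 : ∑ i : Fin n, pu (ω (Sum.inl i)) = n * (1 + al 2 ω) := by
    unfold pu al
    rw [Finset.sum_add_distrib]
    simp only [Finset.sum_const, Finset.card_univ, Fintype.card_fin, nsmul_eq_mul, mul_one]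
    field_simp
  have e3 : ∑ j : Fin N, pv (ω (Sum.inr (k, j))) = N * (sk k ω - 1) := by
    unfold pv sk
    rw [Finset.sum_sub_distrib]
    simp only [Finset.sum_const, Finset.card_univ, Fintype.card_fin, nsmul_eq_mul, mul_one]
    field_simp
  rw [e1, e2, e3]
  field_simp

theorem cross_int (hn : 1 ≤ n) (hN : 1 ≤ N) (k : Fin l) :
    Integrable (fun ω : Omm n (Fin l × Fin N) => (1 + al 2 ω) * (sk k ω - 1) ^ 2) (PM n _) := by
  simp only [cross_eq hn hN]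
  exact (integrable_finsetSum _ fun i _ => integrable_finsetSum _ fun j _ =>
    integrable_finsetSum _ fun j' _ => TT_int k i j j').const_mul _

theorem cross_val (hn : 1 ≤ n) (hN : 1 ≤ N) (k : Fin l) :
    ∫ ω : Omm n (Fin l × Fin N), (1 + al 2 ω) * (sk k ω - 1) ^ 2 ∂(PM n _) =
      2 * (m4 - 1) / N := by
  have hn0 : (0 : ℝ) < n := by exact_mod_cast hn
  have hN0 : (0 : ℝ) < N := by exact_mod_cast hN
  simp only [cross_eq hn hN]
  rw [integral_const_mul, integral_finsetSum _ fun i _ => integrable_finsetSum _ fun j _ =>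
    integrable_finsetSum _ fun j' _ => TT_int k i j j']
  have e1 : ∀ i : Fin n, ∫ ω, ∑ j, ∑ j', TT k i j j' ω ∂(PM n (Fin l × Fin N)) =
      N * (2 * (m4 - 1)) := by
    intro i
    rw [integral_finsetSum _ fun j _ => integrable_finsetSum _ fun j' _ => TT_int k i j j']
    have e2 : ∀ j : Fin N, ∫ ω, ∑ j', TT k i j j' ω ∂(PM n (Fin l × Fin N)) =
        2 * (m4 - 1) := by
      intro j
      rw [integral_finsetSum _ fun j' _ => TT_int k i j j']
      simp only [TT_val]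
      simp
    simp only [e2]
    simp
  simp only [e1]
  simp only [Finset.sum_const, Finset.card_univ, Fintype.card_fin, nsmul_eq_mul]
  field_simp

theorem gm_sq (ω : Omm n (Fin l × Fin N)) : ‖gm ω‖ ^ 2 = ∑ i : Fin n, ω (Sum.inl i) ^ 2 := by
  rw [EuclideanSpace.real_norm_sq_eq]
  rfl

theorem lower_ptm (hn : 1 ≤ n) (hN : 1 ≤ N) {R B : ℝ} (hR0 : 0 ≤ R) (hB : 0 < B)
    (y : Vm n) (hy : ‖y‖ ≤ R) (ω : Omm n (Fin l × Fin N))
    (hc : ‖gm ω‖ ^ 2 ≤ B ^ 2 * n → (∀ k : Fin l, ∑ j : Fin N, ω (Sum.inr (k, j)) ^ 2 ≤ 4 * N) →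
      ‖y - (√n)⁻¹ • gm ω‖ ≤ 1 / 20) :
    al 2 ω - (1 + al 2 ω) / 40 - (al 4 ω + R * (al 2 ω + al 4 ω) / 2) / B ^ 2 -
      (1 + R) / 9 * ∑ k : Fin l, (1 + al 2 ω) * (sk k ω - 1) ^ 2 ≤
      (√n)⁻¹ * ⟪y, gm ω⟫ := by
  have hn0 : (0 : ℝ) < n := by exact_mod_cast hn
  have hN0 : (0 : ℝ) < N := by exact_mod_cast hN
  have hs0 : (0 : ℝ) < √n := Real.sqrt_pos.2 hn0
  set U : Vm n := (√n)⁻¹ • gm ω with hU
  set a := ‖U‖ with ha
  have ha0 : 0 ≤ a := norm_nonneg _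
  have ha2 : a ^ 2 = al 2 ω := by
    rw [ha, hU, norm_smul, mul_pow, gm_sq, norm_inv, Real.norm_of_nonneg hs0.le, inv_pow,
      Real.sq_sqrt hn0.le]
    unfold al
    rw [div_eq_inv_mul]
  have ha4 : a ^ 4 ≤ al 4 ω := by
    have h := sq_avg hn (fun i => ω (Sum.inl i))
    have h2 : (∑ i : Fin n, ω (Sum.inl i) ^ 2) / n = a ^ 2 := by rw [ha2]; rfl
    rw [h2] at h
    calc a ^ 4 = (a ^ 2) ^ 2 := by ring
      _ ≤ _ := h
  have hin : (√n)⁻¹ * ⟪y, gm ω⟫ = ⟪y, U⟫ := by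
    rw [hU, inner_smul_right]
  rw [hin, ← ha2]
  have hyU : |⟪y, U⟫| ≤ R * a :=
    (abs_real_inner_le_norm y U).trans (mul_le_mul_of_nonneg_right hy ha0)
  have hB2 : 0 < B ^ 2 := by positivity
  set X1 := (al 4 ω + R * (a ^ 2 + al 4 ω) / 2) / B ^ 2 with hX1
  set X2 := (1 + R) / 9 * ∑ k : Fin l, (1 + a ^ 2) * (sk k ω - 1) ^ 2 with hX2
  have hX1' : (a ^ 2 + R * a) * (a ^ 2 / B ^ 2) ≤ X1 := by
    rw [hX1, ← mul_div_assoc]
    refine div_le_div_of_nonneg_right ?_ hB2.le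
    have h1 : a * a ^ 2 ≤ (a ^ 2 + a ^ 4) / 2 := by nlinarith [sq_nonneg (a * (a - 1))]
    nlinarith [mul_le_mul_of_nonneg_left h1 hR0, mul_le_mul_of_nonneg_left ha4 hR0]
  have hX10 : 0 ≤ X1 := le_trans (by positivity) hX1'
  have hX20 : 0 ≤ X2 := by
    rw [hX2]
    exact mul_nonneg (by positivity) (Finset.sum_nonneg fun k _ => by positivity)
  have ha1 : a / 20 ≤ (1 + a ^ 2) / 40 := by nlinarith [sq_nonneg (a - 1)]
  have hgood : a ^ 2 / B ^ 2 ≤ 1 → (∀ k : Fin l, sk k ω ≤ 4) →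
      a ^ 2 - (1 + a ^ 2) / 40 - X1 - X2 ≤ ⟪y, U⟫ := by
    intro g1 g2
    have h1 : ‖gm ω‖ ^ 2 ≤ B ^ 2 * n := by
      have h3 : a ^ 2 ≤ B ^ 2 := (div_le_one hB2).1 g1
      have h4 : ‖gm ω‖ ^ 2 = a ^ 2 * n := by
        rw [ha2, gm_sq]; unfold al; field_simp
      rw [h4]
      exact mul_le_mul_of_nonneg_right h3 hn0.le
    have h2 : ∀ k : Fin l, ∑ j : Fin N, ω (Sum.inr (k, j)) ^ 2 ≤ 4 * N := by
      intro k
      have h4 : ∑ j : Fin N, ω (Sum.inr (k, j)) ^ 2 = sk k ω * N := by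
        unfold sk; field_simp
      rw [h4]
      exact mul_le_mul_of_nonneg_right (g2 k) hN0.le
    have h3 := hc h1 h2
    have h4 : ⟪y, U⟫ = ⟪y - U, U⟫ + a ^ 2 := by
      rw [inner_sub_left, real_inner_self_eq_norm_sq]; ring
    have h5 : |⟪y - U, U⟫| ≤ 1 / 20 * a :=
      (abs_real_inner_le_norm _ _).trans (mul_le_mul_of_nonneg_right h3 ha0)
    have h6 := (abs_le.1 h5).1
    linarith
  have hbad : a ^ 2 + R * a ≤ X1 + X2 →
      a ^ 2 - (1 + a ^ 2) / 40 - X1 - X2 ≤ ⟪y, U⟫ := by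
    intro h2
    have h6 := (abs_le.1 hyU).1
    nlinarith [sq_nonneg a]
  by_cases c1 : a ^ 2 / B ^ 2 ≤ 1
  · by_cases c2 : ∀ k : Fin l, sk k ω ≤ 4
    · exact hgood c1 c2
    · push Not at c2
      obtain ⟨k, hk⟩ := c2
      refine hbad ?_
      have h1 : a ^ 2 + R * a ≤ (1 + R) * (1 + a ^ 2) := by nlinarith [sq_nonneg (a - 1)]
      have h3 : (1 + a ^ 2) * 9 ≤ ∑ k : Fin l, (1 + a ^ 2) * (sk k ω - 1) ^ 2 := by
        refine le_trans ?_ (Finset.single_le_sum (f := fun k => (1 + a ^ 2) * (sk k ω - 1) ^ 2)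
          (fun k _ => by positivity) (Finset.mem_univ k))
        exact mul_le_mul_of_nonneg_left (by nlinarith) (by positivity)
      have h4 : (1 + R) * (1 + a ^ 2) ≤ X2 := by
        rw [hX2]
        calc (1 + R) * (1 + a ^ 2) = (1 + R) / 9 * ((1 + a ^ 2) * 9) := by ring
          _ ≤ _ := mul_le_mul_of_nonneg_left h3 (by positivity)
      linarith
  · push Not at c1
    refine hbad ?_
    have h3 : 0 ≤ a ^ 2 + R * a := by positivity
    calc a ^ 2 + R * a ≤ (a ^ 2 + R * a) * (a ^ 2 / B ^ 2) := le_mul_of_one_le_right h3 c1.le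
      _ ≤ X1 + X2 := by linarith

theorem int_combm {f g h : Omm n (Fin l × Fin N) → ℝ} (hf : Integrable f (PM n _))
    (hg : Integrable g (PM n _)) (hh : Integrable h (PM n _)) (a b c d : ℝ) :
    ∫ ω, (a * f ω + b * g ω + c * h ω + d) ∂(PM n (Fin l × Fin N)) =
      a * ∫ ω, f ω ∂(PM n (Fin l × Fin N)) + b * ∫ ω, g ω ∂(PM n (Fin l × Fin N)) +
        c * ∫ ω, h ω ∂(PM n (Fin l × Fin N)) + d := by
  have h1 : Integrable (fun ω => a * f ω) (PM n (Fin l × Fin N)) := hf.const_mul a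
  have h2 : Integrable (fun ω => b * g ω) (PM n (Fin l × Fin N)) := hg.const_mul b
  have h3 : Integrable (fun ω => c * h ω) (PM n (Fin l × Fin N)) := hh.const_mul c
  have h4 : Integrable (fun ω => a * f ω + b * g ω) (PM n (Fin l × Fin N)) := h1.add h2
  have h5 : Integrable (fun ω => a * f ω + b * g ω + c * h ω) (PM n (Fin l × Fin N)) :=
    h4.add h3
  rw [integral_add h5 (integrable_const d), integral_add h4 h3, integral_add h1 h2,
    integral_const_mul, integral_const_mul, integral_const_mul]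
  simp

theorem lowerm (hn : 1 ≤ n) (hN : 1 ≤ N) (A : Fin l × Fin N → (Vm n →L[ℝ] ℝ))
    (ρ : Fin l × Fin N → ℝ)
    (ψ : (Fin l × Fin N → ℝ) → Vm n) (hψ : Continuous ψ) {R : ℝ} (hR0 : 0 ≤ R)
    (hR : ∀ x, ‖ψ x‖ ≤ R) {B : ℝ} (hB : 0 < B) (hBQ : 10 * QQ R ≤ B ^ 2)
    (hlN : 20 * ((1 + R) * (m4 - 1) * l) ≤ 9 * N)
    (hc : ∀ ω : Omm n (Fin l × Fin N), ‖gm ω‖ ^ 2 ≤ B ^ 2 * n →
      (∀ k : Fin l, ∑ j : Fin N, ω (Sum.inr (k, j)) ^ 2 ≤ 4 * N) →
      ‖ψ (XM A ρ ω) - (√n)⁻¹ • gm ω‖ ≤ 1 / 20) :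
    √n / 2 ≤ ∫ ω, ⟪ψ (XM A ρ ω), gm ω⟫ ∂(PM n (Fin l × Fin N)) := by
  have hn0 : (0 : ℝ) < n := by exact_mod_cast hn
  have hN0 : (0 : ℝ) < N := by exact_mod_cast hN
  have hs0 : (0 : ℝ) < √n := Real.sqrt_pos.2 hn0
  have hi2 := int_inner A (ρ := ρ) ψ hψ hR
  have hpt := fun ω => lower_ptm hn hN hR0 hB (ψ (XM A ρ ω)) (hR _) ω (hc ω)
  have I2 := al_int (n := n) (l := l) (N := N) 2
  have I4 := al_int (n := n) (l := l) (N := N) 4
  have J : Integrable (fun ω : Omm n (Fin l × Fin N) =>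
      ∑ k : Fin l, (1 + al 2 ω) * (sk k ω - 1) ^ 2) (PM n _) :=
    integrable_finsetSum _ fun k _ => cross_int hn hN k
  have hJ : ∫ ω : Omm n (Fin l × Fin N), ∑ k : Fin l, (1 + al 2 ω) * (sk k ω - 1) ^ 2
      ∂(PM n _) = l * (2 * (m4 - 1) / N) := by
    rw [integral_finsetSum _ fun k _ => cross_int hn hN k]
    simp only [cross_val hn hN]
    simp
  have e : (fun ω : Omm n (Fin l × Fin N) => al 2 ω - (1 + al 2 ω) / 40 -
      (al 4 ω + R * (al 2 ω + al 4 ω) / 2) / B ^ 2 -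
      (1 + R) / 9 * ∑ k : Fin l, (1 + al 2 ω) * (sk k ω - 1) ^ 2) = fun ω =>
      (1 - 1 / 40 - R / 2 / B ^ 2) * al 2 ω + (-(1 + R / 2) / B ^ 2) * al 4 ω +
      (-((1 + R) / 9)) * (∑ k : Fin l, (1 + al 2 ω) * (sk k ω - 1) ^ 2) + (-1 / 40) := by
    ext ω; ring
  have hint : Integrable (fun ω : Omm n (Fin l × Fin N) => al 2 ω - (1 + al 2 ω) / 40 -
      (al 4 ω + R * (al 2 ω + al 4 ω) / 2) / B ^ 2 -
      (1 + R) / 9 * ∑ k : Fin l, (1 + al 2 ω) * (sk k ω - 1) ^ 2) (PM n _) := by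
    rw [e]
    exact (((I2.const_mul _).add (I4.const_mul _)).add (J.const_mul _)).add
      (integrable_const _)
  have h1 := integral_mono hint (hi2.const_mul (√n)⁻¹) hpt
  rw [integral_const_mul, e, int_combm I2 I4 J, al_val hn, al_val hn, hJ, m2_eq] at h1
  have h3 : QQ R / B ^ 2 ≤ 1 / 10 := by
    rw [div_le_iff₀ (by positivity)]; linarith
  have h4 : (1 + R) / 9 * (l * (2 * (m4 - 1) / N)) ≤ 1 / 10 := by
    have e4 : (1 + R) / 9 * (l * (2 * (m4 - 1) / N)) = 20 * ((1 + R) * (m4 - 1) * l) / (90 * N) := by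
      field_simp
      ring
    rw [e4, div_le_iff₀ (by positivity)]
    linarith
  have h6 : (1 - 1 / 40 - R / 2 / B ^ 2) * 1 + -(1 + R / 2) / B ^ 2 * m4 +
      -((1 + R) / 9) * (l * (2 * (m4 - 1) / N)) + -1 / 40 =
      1 - 2 / 40 - QQ R / B ^ 2 - (1 + R) / 9 * (l * (2 * (m4 - 1) / N)) := by
    unfold QQ
    ring
  have h5 : 1 / 2 ≤ (√n)⁻¹ * ∫ ω, ⟪ψ (XM A ρ ω), gm ω⟫ ∂(PM n (Fin l × Fin N)) := by
    change (1 - 1 / 40 - R / 2 / B ^ 2) * 1 + -(1 + R / 2) / B ^ 2 * m4 +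
      -((1 + R) / 9) * (l * (2 * (m4 - 1) / N)) + -1 / 40 ≤ _ at h1
    rw [h6] at h1
    linarith
  rw [inv_mul_eq_div, le_div_iff₀ hs0] at h5
  linarith

end

end Pool.Agent.W2helper18.HX
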