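import Pool.Agent.W2helper18.HX.LoC
import Pool.Agent.W2helper18.HE.Net
import Pool.Agent.W2helper18.HE.Core

/-!
# MP_e08f0b_an, lower bound: the finite set and the map, several levels
-/

open MeasureTheory ProbabilityTheory Real
open scoped RealInnerProductSpace

namespace Pool.Agent.W2helper18.HX

open Pool.Agent.W2helper18.HE

noncomputable section

variable {n l N : ℕ}

/-- the big space -/
abbrev XX (l N : ℕ) := PiLp 1 (fun _ : Fin l × Fin N => ℝ)

/-- the noise of level `k` -/
def rk (k : ℕ) : ℝ := (1 / 2) ^ k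

/-- the weight of level `k` -/
def wk (α : ℝ) (k : ℕ) : ℝ := (rk k) ^ (1 - α)

theorem rk_pos (k : ℕ) : 0 < rk k := by unfold rk; positivity

theorem rk_le (k : ℕ) : rk k ≤ 1 := pow_le_one₀ (by norm_num) (by norm_num)

theorem wk_pos (α : ℝ) (k : ℕ) : 0 < wk α k := Real.rpow_pos_of_pos (rk_pos k) _

theorem wk_le {α : ℝ} (h1 : α ≤ 1) (k : ℕ) : wk α k ≤ 1 :=
  Real.rpow_le_one (rk_pos k).le (rk_le k) (by linarith)

/-- closeness to the point `u` at all levels -/
def Near (α : ℝ) (A : Fin N → (Vm n →L[ℝ] ℝ)) (lam : ℝ) (u : Vm n) (x : XX l N) : Prop :=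
  ∀ k : Fin l, ∑ j : Fin N, |x (k, j) - wk α k * A j u| ≤ lam * rk k

theorem level_le (x y : XX l N) (k : Fin l) :
    ∑ j : Fin N, |x (k, j) - y (k, j)| ≤ dist x y := by
  rw [PiLp.dist_eq_of_L1, Fintype.sum_prod_type]
  simp only [Real.dist_eq]
  exact Finset.single_le_sum (f := fun k : Fin l => ∑ j : Fin N, |x (k, j) - y (k, j)|)
    (fun k _ => Finset.sum_nonneg fun j _ => abs_nonneg _) (Finset.mem_univ k)

theorem near_dist {α lam : ℝ} {A : Fin N → (Vm n →L[ℝ] ℝ)}
    (hlow : ∀ y, lam * ‖y‖ ≤ ∑ j, |A j y|) {u v : Vm n} {x y : XX l N}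
    (hx : Near α A lam u x) (hy : Near α A lam v y) (k : Fin l) :
    wk α k * (lam * ‖u - v‖) ≤ dist x y + 2 * (lam * rk k) := by
  have hw := wk_pos α k
  have h1 := mul_le_mul_of_nonneg_left (hlow (u - v)) hw.le
  refine h1.trans ?_
  rw [Finset.mul_sum]
  have h2 : ∀ j : Fin N, wk α k * |A j (u - v)| ≤
      |x (k, j) - y (k, j)| + |x (k, j) - wk α k * A j u| + |y (k, j) - wk α k * A j v| := by
    intro j
    have e : wk α k * |A j (u - v)| = |wk α k * A j u - wk α k * A j v| := by
      rw [map_sub, ← mul_sub, abs_mul, abs_of_pos hw]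
    rw [e]
    have e2 : wk α k * A j u - wk α k * A j v = (x (k, j) - y (k, j)) -
        (x (k, j) - wk α k * A j u) + (y (k, j) - wk α k * A j v) := by ring
    rw [e2]
    have t1 := abs_add_le ((x (k, j) - y (k, j)) - (x (k, j) - wk α k * A j u))
      (y (k, j) - wk α k * A j v)
    have t2 := abs_sub (x (k, j) - y (k, j)) (x (k, j) - wk α k * A j u)
    linarith
  refine (Finset.sum_le_sum fun j _ => h2 j).trans ?_
  rw [Finset.sum_add_distrib, Finset.sum_add_distrib]
  have := level_le x y k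
  have := hx k
  have := hy k
  linarith

theorem near_bdd (α : ℝ) (h1 : α ≤ 1) (A : Fin N → (Vm n →L[ℝ] ℝ)) (hA : ∀ j, ‖A j‖ ≤ 1)
    (B lam : ℝ) (hlam : 0 ≤ lam) :
    Bornology.IsBounded {x : XX l N | ∃ u : Vm n, ‖u‖ ≤ B ∧ Near α A lam u x} := by
  rw [isBounded_iff_forall_norm_le]
  refine ⟨l * (lam + N * B), ?_⟩
  rintro x ⟨u, hu, hx⟩
  have hB : 0 ≤ B := (norm_nonneg u).trans hu
  rw [PiLp.norm_eq_of_L1, Fintype.sum_prod_type]
  calc ∑ k : Fin l, ∑ j : Fin N, ‖x (k, j)‖ ≤ ∑ _k : Fin l, (lam + N * B) := by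
        refine Finset.sum_le_sum fun k _ => ?_
        have h2 : ∀ j : Fin N, ‖x (k, j)‖ ≤ |x (k, j) - wk α k * A j u| + B := by
          intro j
          rw [Real.norm_eq_abs]
          have e : x (k, j) = (x (k, j) - wk α k * A j u) + wk α k * A j u := by ring
          have h3 : |wk α k * A j u| ≤ B := by
            rw [abs_mul, abs_of_pos (wk_pos α k)]
            calc wk α k * |A j u| ≤ 1 * (1 * B) := by
                  refine mul_le_mul (wk_le h1 k) ?_ (abs_nonneg _) zero_le_one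
                  calc |A j u| ≤ ‖A j‖ * ‖u‖ := (A j).le_opNorm u
                    _ ≤ 1 * B := mul_le_mul (hA j) hu (norm_nonneg _) zero_le_one
              _ = B := by ring
          calc |x (k, j)| = |(x (k, j) - wk α k * A j u) + wk α k * A j u| := by rw [← e]
            _ ≤ |x (k, j) - wk α k * A j u| + |wk α k * A j u| := abs_add_le _ _
            _ ≤ _ := by linarith
        refine (Finset.sum_le_sum fun j _ => h2 j).trans ?_
        rw [Finset.sum_add_distrib]
        have h4 := hx k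
        have h5 : lam * rk k ≤ lam := mul_le_of_le_one_right hlam (rk_le k)
        simp only [Finset.sum_const, Finset.card_univ, Fintype.card_fin, nsmul_eq_mul]
        linarith
    _ = l * (lam + N * B) := by
      simp only [Finset.sum_const, Finset.card_univ, Fintype.card_fin, nsmul_eq_mul]

theorem exists_datam (A : Fin N → (Vm n →L[ℝ] ℝ)) (hA : ∀ j, ‖A j‖ ≤ 1)
    {lam B r α : ℝ} (hlam : 0 < lam) (hlow : ∀ y, lam * ‖y‖ ≤ ∑ j, |A j y|) (hB : 0 ≤ B)
    (hr : 0 < r) (hl : 1 ≤ l) (hr1 : rk (l - 1) ≤ r) (hr2 : r ≤ 2 * rk (l - 1))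
    (h12 : 1 / 2 < α) (h1 : α < 1) :
    ∃ (E : Finset (XX l N)) (φ : XX l N → Vm n),
      (∀ x ∈ E, ∀ y ∈ E, ‖φ x - φ y‖ ≤ (2 * B + 5) * (dist x y / lam) ^ α) ∧
      (∀ x ∈ E, ‖φ x‖ ≤ B) ∧
      (∀ u : Vm n, ‖u‖ ≤ B → ∀ x : XX l N, Near α A lam u x →
        ∃ e ∈ E, dist x e ≤ lam * r ∧ ‖φ e - u‖ ≤ 6 * r ^ α) := by
  classical
  obtain ⟨E, hE1, hE2, hE3⟩ := exists_net _ (near_bdd (l := l) α h1.le A hA B lam hlam.le)
    (mul_pos hlam hr)
  choose! uu huB huN using fun (x : XX l N) (hx : x ∈ {x : XX l N | ∃ u : Vm n, ‖u‖ ≤ B ∧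
    Near α A lam u x}) => hx
  have hα0 : 0 < α := by linarith
  have key : ∀ (u v : Vm n) (x y : XX l N), Near α A lam u x → Near α A lam v y →
      ∀ t, dist x y ≤ lam * t → ∀ k : Fin l, ‖u - v‖ ≤ (t + 2 * rk k) / wk α k := by
    intro u v x y hx hy t ht k
    have hw := wk_pos α k
    have h := near_dist hlow hx hy k
    rw [le_div_iff₀ hw]
    have h2 : lam * (‖u - v‖ * wk α k) ≤ lam * (t + 2 * rk k) := by
      calc lam * (‖u - v‖ * wk α k) = wk α k * (lam * ‖u - v‖) := by ring
        _ ≤ dist x y + 2 * (lam * rk k) := h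
        _ ≤ lam * t + 2 * (lam * rk k) := by linarith
        _ = _ := by ring
    exact le_of_mul_le_mul_left h2 hlam
  have hww : ∀ k : ℕ, rk k / wk α k = rk k ^ α := by
    intro k
    have hk := rk_pos k
    unfold wk
    rw [div_eq_iff (Real.rpow_pos_of_pos hk _).ne', ← Real.rpow_add hk]
    simp
  refine ⟨E, uu, ?_, fun x hx => huB x (hE1 x hx), ?_⟩
  · intro x hx y hy
    rcases eq_or_ne x y with rfl | hxy
    · rw [sub_self, norm_zero]
      positivity
    set t := dist x y / lam with ht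
    have ht0 : 0 < t := div_pos (dist_pos.2 hxy) hlam
    have hdt : dist x y = lam * t := by rw [ht]; field_simp
    have hrt : r < t := by
      have h2 := hE2 x hx y hy hxy
      rw [hdt] at h2
      exact lt_of_mul_lt_mul_left h2 hlam.le
    have htα : 0 < t ^ α := Real.rpow_pos_of_pos ht0 α
    rcases lt_or_ge t 1 with ht1 | ht1
    · obtain ⟨k, hk1, hk2⟩ := exists_nat_pow_near_of_lt_one ht0 ht1.le (show (0 : ℝ) < 1 / 2 by
        norm_num) (by norm_num)
      change rk (k + 1) < t at hk1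
      change t ≤ rk k at hk2
      have hkl : k < l := by
        by_contra hcon
        push Not at hcon
        have h3 : rk k ≤ rk (l - 1) := by
          unfold rk
          exact pow_le_pow_of_le_one (by norm_num) (by norm_num) (by omega)
        linarith
      have h4 := key (uu x) (uu y) x y (huN x (hE1 x hx)) (huN y (hE1 y hy)) t hdt.le ⟨k, hkl⟩
      simp only at h4
      have hk3 : rk k < 2 * t := by
        have e : rk (k + 1) = rk k / 2 := by unfold rk; rw [pow_succ]; ring
        rw [e] at hk1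
        linarith
      have h5 : t / wk α k ≤ t ^ α := by
        have hk0 := rk_pos k
        rw [div_le_iff₀ (wk_pos α k)]
        unfold wk
        calc t = t ^ α * t ^ (1 - α) := by rw [← Real.rpow_add ht0]; simp
          _ ≤ t ^ α * rk k ^ (1 - α) :=
            mul_le_mul_of_nonneg_left (Real.rpow_le_rpow ht0.le hk2 (by linarith)) htα.le
      have h6 : rk k / wk α k ≤ 2 * t ^ α := by
        rw [hww]
        calc rk k ^ α ≤ (2 * t) ^ α := Real.rpow_le_rpow (rk_pos k).le hk3.le hα0.le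
          _ = 2 ^ α * t ^ α := Real.mul_rpow (by norm_num) ht0.le
          _ ≤ 2 * t ^ α := by
            refine mul_le_mul_of_nonneg_right ?_ htα.le
            conv_rhs => rw [← Real.rpow_one 2]
            exact Real.rpow_le_rpow_of_exponent_le (by norm_num) h1.le
      have h7 : (t + 2 * rk k) / wk α k = t / wk α k + 2 * (rk k / wk α k) := by ring
      rw [h7] at h4
      nlinarith
    · have h2 : ‖uu x - uu y‖ ≤ ‖uu x‖ + ‖uu y‖ := norm_sub_le _ _
      have h3 := huB x (hE1 x hx)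
      have h4 := huB y (hE1 y hy)
      have h5 : 1 ≤ t ^ α := Real.one_le_rpow ht1 (by linarith)
      nlinarith
  · intro u hu x hx
    obtain ⟨e, he, hxe⟩ := hE3 x ⟨u, hu, hx⟩
    refine ⟨e, he, hxe, ?_⟩
    have h4 := key (uu e) u e x (huN e (hE1 e he)) hx r (by rw [dist_comm]; exact hxe)
      ⟨l - 1, by omega⟩
    simp only at h4
    have hk := rk_pos (l - 1)
    have hw := wk_pos α (l - 1)
    refine h4.trans ?_
    have h5 : rk (l - 1) / wk α (l - 1) ≤ r ^ α := by
      rw [hww]
      exact Real.rpow_le_rpow hk.le hr1 hα0.le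
    calc (r + 2 * rk (l - 1)) / wk α (l - 1) ≤ (4 * rk (l - 1)) / wk α (l - 1) :=
          div_le_div_of_nonneg_right (by linarith) hw.le
      _ = 4 * (rk (l - 1) / wk α (l - 1)) := by ring
      _ ≤ 6 * r ^ α := by
          have : 0 ≤ rk (l - 1) / wk α (l - 1) := by positivity
          linarith

end

end Pool.Agent.W2helper18.HX
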