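import Pool.Agent.W2helper18.HX.LoD

/-!
# MP_e08f0b_an, lower bound: the main inequality, several levels
-/

open MeasureTheory ProbabilityTheory Real
open scoped RealInnerProductSpace

namespace Pool.Agent.W2helper18.HX

open Pool.Agent.W2helper18.HE

noncomputable section

variable {n l : ℕ}

theorem corem {N₀ : ℕ} {κ : ℝ} (hN₀ : 0 < N₀) (hκ : 0 < κ) (hn : 1 ≤ n)
    (A : Fin (N₀ * n) → (Vm n →L[ℝ] ℝ)) (hA : ∀ j, ‖A j‖ ≤ 1)
    (hlow : ∀ y, κ * √n * ‖y‖ ≤ ∑ j, |A j y|) {α c r B : ℝ} (h12 : 1 / 2 < α) (h1 : α < 1)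
    (hc0 : 0 < c)
    (hext : ∀ (E : Set (XX l (N₀ * n))) (φ : E → Vm n),
      (∀ x y : E, ‖φ x - φ y‖ ≤ dist (x : XX l (N₀ * n)) (y : XX l (N₀ * n)) ^ α) →
      ∃ ψ : XX l (N₀ * n) → Vm n, (∀ x : E, ψ (x : XX l (N₀ * n)) = φ x) ∧
        ∀ x y, ‖ψ x - ψ y‖ ≤ c * dist x y ^ α)
    (hr : 0 < r) (hl : 1 ≤ l) (hr1 : rk (l - 1) ≤ r) (hr2 : r ≤ 2 * rk (l - 1))
    (hsm : (2 * ((2 * B + 5) * c) + 6) * r ^ α ≤ 1 / 20) (hB : 0 < B)
    (hBQ : 10 * QQ B ≤ B ^ 2)
    (hlN : 20 * ((1 + B) * (m4 - 1) * l) ≤ 9 * ((N₀ * n : ℕ) : ℝ)) :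
    κ * (n : ℝ) ^ (α - 1 / 2) ≤ 8 * (2 * B + 5) * (N₀ : ℝ) ^ 2 * (c * l) := by
  have hn0 : (0 : ℝ) < n := by exact_mod_cast hn
  have hs0 : (0 : ℝ) < √n := Real.sqrt_pos.2 hn0
  have hN0 : (0 : ℝ) < N₀ := by exact_mod_cast hN₀
  have hN01 : (1 : ℝ) ≤ N₀ := by exact_mod_cast hN₀
  have hl0 : (0 : ℝ) < l := by exact_mod_cast hl
  have hα0 : 0 < α := by linarith
  set lam := κ * √n with hlam
  have hlam0 : 0 < lam := mul_pos hκ hs0
  set C := 2 * B + 5 with hC
  have hC0 : 0 < C := by positivity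
  set N : ℝ := ((N₀ * n : ℕ) : ℝ) with hNd
  have hNe : N = N₀ * n := by rw [hNd]; push_cast; ring
  have hN1 : 1 ≤ N₀ * n := Nat.mul_pos hN₀ hn
  have hNp : 0 < N := by rw [hNe]; positivity
  set σ : Fin l × Fin (N₀ * n) → ℝ := fun p => lam * rk p.1 / (2 * N) with hσ
  have hσ0 : ∀ p, 0 < σ p := fun p => by
    have := rk_pos (p.1 : ℕ)
    simp only [hσ]
    positivity
  set A' : Fin l × Fin (N₀ * n) → (Vm n →L[ℝ] ℝ) := fun p => wk α p.1 • A p.2 with hA'
  have hA'n : ∀ p, ‖A' p‖ ≤ wk α p.1 := fun p => by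
    simp only [hA']
    rw [norm_smul, Real.norm_of_nonneg (wk_pos α _).le]
    exact mul_le_of_le_one_right (wk_pos α _).le (hA _)
  have hla : 0 < lam ^ α := Real.rpow_pos_of_pos hlam0 α
  obtain ⟨E, φ, hE1, hE2, hE3⟩ := exists_datam (l := l) A hA hlam0 hlow hB.le hr hl hr1 hr2
    h12 h1
  obtain ⟨ψ', hψ1, hψ2⟩ := hext (E : Set (XX l (N₀ * n)))
    (fun x => (lam ^ α / C) • φ (x : XX l (N₀ * n))) (by
      intro x y
      rw [← smul_sub, norm_smul, Real.norm_of_nonneg (by positivity)]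
      have h := hE1 x x.2 y y.2
      rw [Real.div_rpow dist_nonneg hlam0.le] at h
      calc lam ^ α / C * ‖φ (x : XX l (N₀ * n)) - φ (y : XX l (N₀ * n))‖
          ≤ lam ^ α / C * (C * (dist (x : XX l (N₀ * n)) (y : XX l (N₀ * n)) ^ α / lam ^ α)) :=
            mul_le_mul_of_nonneg_left h (by positivity)
        _ = dist (x : XX l (N₀ * n)) (y : XX l (N₀ * n)) ^ α := by field_simp)
  set K := 2 * (C / lam ^ α * c) with hK
  have hK0 : 0 ≤ K := by positivity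
  set ψ₁ : XX l (N₀ * n) → Vm n := fun x => retr B ((C / lam ^ α) • ψ' x) with hψ₁
  have hψE : ∀ x ∈ E, ψ₁ x = φ x := by
    intro x hx
    have h := hψ1 ⟨x, hx⟩
    simp only at h
    simp only [hψ₁]
    rw [h, smul_smul, show C / lam ^ α * (lam ^ α / C) = 1 by field_simp, one_smul]
    exact retr_eq hB (hE2 x hx)
  have hψH : ∀ x y, ‖ψ₁ x - ψ₁ y‖ ≤ K * dist x y ^ α := by
    intro x y
    refine (retr_lip hB _ _).trans ?_
    rw [← smul_sub, norm_smul, Real.norm_of_nonneg (by positivity)]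
    have h := mul_le_mul_of_nonneg_left (hψ2 x y) (show 0 ≤ C / lam ^ α by positivity)
    calc 2 * (C / lam ^ α * ‖ψ' x - ψ' y‖) ≤ 2 * (C / lam ^ α * (c * dist x y ^ α)) := by
          linarith
      _ = K * dist x y ^ α := by rw [hK]; ring
  have hψc : Continuous ψ₁ := holder_cont hα0 hψH
  set ψ : (Fin l × Fin (N₀ * n) → ℝ) → Vm n := fun x => ψ₁ (WithLp.toLp 1 x) with hψ
  have hψcont : Continuous ψ := hψc.comp (PiLp.continuous_toLp 1 _)
  have hψR : ∀ x, ‖ψ x‖ ≤ B := fun x => retr_norm hB _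
  have hup := upperm hn A' hσ0 ψ hψcont hψR hK0 hα0.le h1.le (by
    intro x y j hxy
    refine (hψH _ _).trans (le_of_eq ?_)
    congr 2
    rw [PiLp.dist_eq_of_L1, Finset.sum_eq_single j]
    · rfl
    · intro k _ hk
      simp only
      rw [hxy k hk, dist_self]
    · simp)
  have hlo := lowerm hn hN1 A' σ ψ hψcont hB.le hψR hB hBQ hlN (by
    intro ω hω1 hω2
    set u : Vm n := (√n)⁻¹ • gm ω with hu
    have huB : ‖u‖ ≤ B := by
      rw [hu, norm_smul, norm_inv, Real.norm_of_nonneg hs0.le, inv_mul_le_iff₀ hs0]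
      refine abs_le_of_sq_le_sq' ?_ (by positivity) |>.2
      rw [mul_pow, Real.sq_sqrt hn0.le]
      linarith
    have hnear : Near α A lam u (WithLp.toLp 1 (XM A' σ ω) : XX l (N₀ * n)) := by
      intro k
      have e1 : ∀ j, |(WithLp.toLp 1 (XM A' σ ω) : XX l (N₀ * n)) (k, j) - wk α k * A j u| =
          lam * rk k / (2 * N) * |ω (Sum.inr (k, j))| := by
        intro j
        simp only [XM, hu, hA', hσ, map_smul, smul_eq_mul, ContinuousLinearMap.smul_apply]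
        rw [show wk α k * A j (gm ω) / √n + lam * rk k / (2 * N) * ω (Sum.inr (k, j)) -
          wk α k * ((√n)⁻¹ * A j (gm ω)) = lam * rk k / (2 * N) * ω (Sum.inr (k, j)) by ring,
          abs_mul, abs_of_pos (hσ0 (k, j))]
      rw [Finset.sum_congr rfl fun j _ => e1 j, ← Finset.mul_sum]
      have h2 : ∑ j : Fin (N₀ * n), |ω (Sum.inr (k, j))| ≤ 2 * N := by
        refine abs_le_of_sq_le_sq' ?_ (by positivity) |>.2
        have h3 := sq_sum_le_card_mul_sum_sq (s := (Finset.univ : Finset (Fin (N₀ * n))))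
          (f := fun j => |ω (Sum.inr (k, j))|)
        rw [Finset.card_univ, Fintype.card_fin, ← hNd] at h3
        simp only [sq_abs] at h3
        have h4 := hω2 k
        rw [← hNd] at h4
        calc (∑ j : Fin (N₀ * n), |ω (Sum.inr (k, j))|) ^ 2
            ≤ N * ∑ j : Fin (N₀ * n), ω (Sum.inr (k, j)) ^ 2 := h3
          _ ≤ N * (4 * N) := mul_le_mul_of_nonneg_left h4 hNp.le
          _ = (2 * N) ^ 2 := by ring
      calc lam * rk k / (2 * N) * ∑ j : Fin (N₀ * n), |ω (Sum.inr (k, j))|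
          ≤ lam * rk k / (2 * N) * (2 * N) :=
            mul_le_mul_of_nonneg_left h2 (hσ0 (k, ⟨0, hN1⟩)).le
        _ = lam * rk k := by field_simp
    obtain ⟨e, he, hxe, heu⟩ := hE3 u huB _ hnear
    have h4 : ‖ψ (XM A' σ ω) - φ e‖ ≤ 2 * (C * c) * r ^ α := by
      rw [← hψE e he]
      refine (hψH _ _).trans ?_
      calc K * dist (WithLp.toLp 1 (XM A' σ ω) : XX l (N₀ * n)) e ^ α ≤ K * (lam * r) ^ α := by
            gcongr
        _ = 2 * (C * c) * r ^ α := by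
            rw [hK, Real.mul_rpow hlam0.le hr.le]; field_simp
    have h5 : ‖ψ (XM A' σ ω) - u‖ ≤ ‖ψ (XM A' σ ω) - φ e‖ + ‖φ e - u‖ := by
      have e1 : ψ (XM A' σ ω) - u = (ψ (XM A' σ ω) - φ e) + (φ e - u) := by abel
      rw [e1]
      exact norm_add_le _ _
    have h6 : (2 * (C * c) + 6) * r ^ α = 2 * (C * c) * r ^ α + 6 * r ^ α := by ring
    rw [h6] at hsm
    linarith)
  -- combination
  have h3 : √n * (√n / 2) ≤ ∑ p : Fin l × Fin (N₀ * n),
      (σ p)⁻¹ * (‖A' p‖ * (K * (2 * σ p) ^ α)) :=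
    (mul_le_mul_of_nonneg_left hlo hs0.le).trans hup
  have h4 : √(n : ℝ) * √n = n := Real.mul_self_sqrt hn0.le
  have h5 : √n * (√n / 2) = (n : ℝ) / 2 := by rw [← mul_div_assoc, h4]
  rw [h5] at h3
  have hterm : ∀ p, (σ p)⁻¹ * (‖A' p‖ * (K * (2 * σ p) ^ α)) ≤
      4 * (C * c) * N ^ (1 - α) / lam := by
    intro p
    have hrk := rk_pos (p.1 : ℕ)
    have hp := hσ0 p
    calc (σ p)⁻¹ * (‖A' p‖ * (K * (2 * σ p) ^ α))
        ≤ (σ p)⁻¹ * (wk α p.1 * (K * (2 * σ p) ^ α)) := by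
          gcongr
          exact hA'n p
      _ = 4 * (C * c) * N ^ (1 - α) / lam := by
          have e1 : (2 * σ p) = lam * rk p.1 / N := by
            simp only [hσ]; field_simp
          have e2 : (σ p)⁻¹ = 2 * (2 * σ p)⁻¹ := by field_simp
          rw [e2, e1]
          have e3 : (lam * rk p.1 / N)⁻¹ * (lam * rk p.1 / N) ^ α =
              (N ^ (1 - α) / lam ^ (1 - α)) * (rk p.1 ^ (1 - α))⁻¹ := by
            have hx : 0 < lam * rk p.1 / N := by positivity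
            have e4 : (lam * rk p.1 / N)⁻¹ * (lam * rk p.1 / N) ^ α =
                (lam * rk p.1 / N) ^ (-(1 - α)) := by
              rw [← Real.rpow_neg_one, ← Real.rpow_add hx]
              congr 1
              ring
            rw [e4, Real.rpow_neg hx.le, Real.div_rpow (by positivity) hNp.le,
              Real.mul_rpow hlam0.le hrk.le]
            field_simp
          have hw : wk α p.1 * (rk p.1 ^ (1 - α))⁻¹ = 1 := by
            unfold wk
            exact mul_inv_cancel₀ (Real.rpow_pos_of_pos hrk _).ne'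
          have e5 : lam ^ α * lam ^ (1 - α) = lam := by
            rw [← Real.rpow_add hlam0]; simp
          have hl1 : 0 < lam ^ (1 - α) := Real.rpow_pos_of_pos hlam0 _
          calc 2 * (lam * rk p.1 / N)⁻¹ * (wk α p.1 * (K * (lam * rk p.1 / N) ^ α))
              = 2 * K * wk α p.1 *
                ((lam * rk p.1 / N)⁻¹ * (lam * rk p.1 / N) ^ α) := by ring
            _ = 2 * K * (N ^ (1 - α) / lam ^ (1 - α)) *
                (wk α p.1 * (rk p.1 ^ (1 - α))⁻¹) := by rw [e3]; ring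
            _ = 4 * (C * c) * N ^ (1 - α) / (lam ^ α * lam ^ (1 - α)) := by
                rw [hw, hK]; field_simp; ring
            _ = 4 * (C * c) * N ^ (1 - α) / lam := by rw [e5]
  have h6 : (n : ℝ) / 2 ≤ l * N * (4 * (C * c) * N ^ (1 - α) / lam) := by
    refine h3.trans ((Finset.sum_le_sum fun p _ => hterm p).trans (le_of_eq ?_))
    rw [Finset.sum_const, Finset.card_univ, Fintype.card_prod, Fintype.card_fin,
      Fintype.card_fin, nsmul_eq_mul, Nat.cast_mul, ← hNd]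
  have h7 : (n : ℝ) * lam ≤ 8 * (C * c) * l * (N * N ^ (1 - α)) := by
    rw [← mul_div_assoc, le_div_iff₀ hlam0] at h6
    linarith
  have h8 : N * N ^ (1 - α) ≤ (N₀ : ℝ) ^ 2 * (n * n ^ (1 - α)) := by
    rw [hNe, Real.mul_rpow hN0.le hn0.le]
    have h9 : (N₀ : ℝ) ^ (1 - α) ≤ N₀ := by
      conv_rhs => rw [← Real.rpow_one (N₀ : ℝ)]
      exact Real.rpow_le_rpow_of_exponent_le hN01 (by linarith)
    calc (N₀ : ℝ) * n * (N₀ ^ (1 - α) * n ^ (1 - α)) ≤ N₀ * n * (N₀ * n ^ (1 - α)) := by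
          gcongr
      _ = _ := by ring
  have h10 : (n : ℝ) * lam ≤ 8 * (C * c) * l * ((N₀ : ℝ) ^ 2 * (n * n ^ (1 - α))) :=
    h7.trans (mul_le_mul_of_nonneg_left h8 (by positivity))
  have hn1α : 0 < (n : ℝ) ^ (1 - α) := Real.rpow_pos_of_pos hn0 _
  have h11 : √n = (n : ℝ) ^ (α - 1 / 2) * n ^ (1 - α) := by
    rw [Real.sqrt_eq_rpow, ← Real.rpow_add hn0]
    congr 1
    ring
  have h12' : (n * (n : ℝ) ^ (1 - α)) * (κ * (n : ℝ) ^ (α - 1 / 2)) ≤
      (n * (n : ℝ) ^ (1 - α)) * (8 * C * (N₀ : ℝ) ^ 2 * (c * l)) := by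
    calc (n * (n : ℝ) ^ (1 - α)) * (κ * (n : ℝ) ^ (α - 1 / 2))
        = n * (κ * ((n : ℝ) ^ (α - 1 / 2) * n ^ (1 - α))) := by ring
      _ = n * lam := by rw [← h11]
      _ ≤ 8 * (C * c) * l * ((N₀ : ℝ) ^ 2 * (n * n ^ (1 - α))) := h10
      _ = _ := by ring
  exact le_of_mul_le_mul_left h12' (by positivity)

end

end Pool.Agent.W2helper18.HX
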