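import Mathlib

/-!
# MP_e08f0b_an, upper bound: a sum over scales
-/

namespace Pool.Agent.W2helper18.HX

noncomputable section

/-- the bound of the sum over scales -/
def CT (β γ : ℝ) : ℝ := 1 / (1 - 2 ^ (-γ)) + 2 ^ β / (2 ^ β - 1)

theorem two_pow_gt {β : ℝ} (hβ : 0 < β) : 1 < (2 : ℝ) ^ β := Real.one_lt_rpow (by norm_num) hβ

theorem two_pow_lt {γ : ℝ} (hγ : 0 < γ) : (2 : ℝ) ^ (-γ) < 1 :=
  Real.rpow_lt_one_of_one_lt_of_neg (by norm_num) (by linarith)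

theorem CT_pos {β γ : ℝ} (hβ : 0 < β) (hγ : 0 < γ) : 0 < CT β γ := by
  have h1 := two_pow_gt hβ
  have h2 := two_pow_lt hγ
  have h3 : 0 < (2 : ℝ) ^ β - 1 := by linarith
  have h4 : 0 < 1 - (2 : ℝ) ^ (-γ) := by linarith
  unfold CT
  positivity

theorem tent_large {γ : ℝ} (hγ : 0 < γ) (β : ℝ) (m : ℕ) : ∀ x : ℝ, 0 < x →
    ∑ i ∈ Finset.range m, min (((2 : ℝ) ^ i * x) ^ β) (((2 : ℝ) ^ i * x) ^ (-γ)) ≤
      1 / (1 - 2 ^ (-γ)) * x ^ (-γ) := by
  have h2 := two_pow_lt hγ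
  have h4 : 0 < 1 - (2 : ℝ) ^ (-γ) := by linarith
  induction m with
  | zero =>
    intro x hx
    simp only [Finset.range_zero, Finset.sum_empty]
    positivity
  | succ m ih =>
    intro x hx
    rw [Finset.sum_range_succ']
    have e : ∀ i : ℕ, (2 : ℝ) ^ (i + 1) * x = 2 ^ i * (2 * x) := fun i => by ring
    simp only [e, pow_zero, one_mul]
    have h5 := ih (2 * x) (by positivity)
    rw [Real.mul_rpow (by norm_num) hx.le] at h5
    have h6 : min (x ^ β) (x ^ (-γ)) ≤ x ^ (-γ) := min_le_right _ _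
    have h7 : 1 / (1 - 2 ^ (-γ)) * x ^ (-γ) =
        1 / (1 - 2 ^ (-γ)) * (2 ^ (-γ) * x ^ (-γ)) + x ^ (-γ) := by
      field_simp
      ring
    rw [h7]
    linarith

theorem tent_small {β γ : ℝ} (hβ : 0 < β) (hγ : 0 < γ) (m : ℕ) : ∀ x : ℝ, 0 < x → x ≤ 1 →
    ∑ i ∈ Finset.range m, min (((2 : ℝ) ^ i * x) ^ β) (((2 : ℝ) ^ i * x) ^ (-γ)) ≤
      1 / (1 - 2 ^ (-γ)) + (2 ^ β - x ^ β) / (2 ^ β - 1) := by
  have h2 := two_pow_lt hγ
  have h4 : 0 < 1 - (2 : ℝ) ^ (-γ) := by linarith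
  have h1 := two_pow_gt hβ
  have h3 : 0 < (2 : ℝ) ^ β - 1 := by linarith
  induction m with
  | zero =>
    intro x hx hx1
    simp only [Finset.range_zero, Finset.sum_empty]
    have h5 : x ^ β ≤ 1 := Real.rpow_le_one hx.le hx1 hβ.le
    have h6 : 0 ≤ (2 ^ β - x ^ β) / (2 ^ β - 1) := div_nonneg (by linarith) h3.le
    have h7 : 0 < 1 / (1 - (2 : ℝ) ^ (-γ)) := by positivity
    linarith
  | succ m ih =>
    intro x hx hx1
    rw [Finset.sum_range_succ']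
    have e : ∀ i : ℕ, (2 : ℝ) ^ (i + 1) * x = 2 ^ i * (2 * x) := fun i => by ring
    simp only [e, pow_zero, one_mul]
    have h6 : min (x ^ β) (x ^ (-γ)) ≤ x ^ β := min_le_left _ _
    have hxβ : 0 < x ^ β := Real.rpow_pos_of_pos hx β
    rcases le_or_gt (2 * x) 1 with h | h
    · have h5 := ih (2 * x) (by positivity) h
      rw [Real.mul_rpow (by norm_num) hx.le] at h5
      have h7 : (2 ^ β - x ^ β) / (2 ^ β - 1) =
          (2 ^ β - 2 ^ β * x ^ β) / (2 ^ β - 1) + x ^ β := by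
        field_simp
        ring
      rw [h7]
      linarith
    · have h5 := tent_large hγ β m (2 * x) (by positivity)
      have h8 : (2 * x) ^ (-γ) ≤ 1 := Real.rpow_le_one_of_one_le_of_nonpos h.le (by linarith)
      have h9 : 1 / (1 - (2 : ℝ) ^ (-γ)) * (2 * x) ^ (-γ) ≤ 1 / (1 - 2 ^ (-γ)) :=
        mul_le_of_le_one_right (by positivity) h8
      have h5' : x ^ β ≤ 1 := Real.rpow_le_one hx.le hx1 hβ.le
      have h10 : x ^ β ≤ (2 ^ β - x ^ β) / (2 ^ β - 1) := by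
        rw [le_div_iff₀ h3]
        nlinarith
      linarith

theorem tent {β γ : ℝ} (hβ : 0 < β) (hγ : 0 < γ) (m : ℕ) {x : ℝ} (hx : 0 < x) :
    ∑ i ∈ Finset.range m, min (((2 : ℝ) ^ i * x) ^ β) (((2 : ℝ) ^ i * x) ^ (-γ)) ≤ CT β γ := by
  have h2 := two_pow_lt hγ
  have h4 : 0 < 1 - (2 : ℝ) ^ (-γ) := by linarith
  have h1 := two_pow_gt hβ
  have h3 : 0 < (2 : ℝ) ^ β - 1 := by linarith
  have h30 : 0 < (2 : ℝ) ^ β := by linarith
  rcases le_or_gt x 1 with h | h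
  · refine (tent_small hβ hγ m x hx h).trans ?_
    unfold CT
    have : (2 ^ β - x ^ β) / (2 ^ β - 1) ≤ 2 ^ β / (2 ^ β - 1) :=
      div_le_div_of_nonneg_right (by have := Real.rpow_pos_of_pos hx β; linarith) h3.le
    linarith
  · refine (tent_large hγ β m x hx).trans ?_
    unfold CT
    have h8 : x ^ (-γ) ≤ 1 := Real.rpow_le_one_of_one_le_of_nonpos h.le (by linarith)
    have h9 : 1 / (1 - (2 : ℝ) ^ (-γ)) * x ^ (-γ) ≤ 1 / (1 - 2 ^ (-γ)) :=
      mul_le_of_le_one_right (by positivity) h8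
    have : 0 < (2 : ℝ) ^ β / (2 ^ β - 1) := by positivity
    linarith

/-- the sum of the errors -/
def SS (α : ℝ) (m : ℕ) : ℝ := ∑ i ∈ Finset.range m, ((2 : ℝ) ^ i) ^ α

theorem SS_ge {α : ℝ} (hα : 0 ≤ α) (m : ℕ) : (m : ℝ) ≤ SS α m := by
  unfold SS
  calc (m : ℝ) = ∑ _i ∈ Finset.range m, (1 : ℝ) := by simp
    _ ≤ _ := Finset.sum_le_sum fun i _ =>
      Real.one_le_rpow (one_le_pow₀ (by norm_num)) hα

theorem SS_le {α : ℝ} (hα : 0 < α) (m : ℕ) : SS α m ≤ ((2 : ℝ) ^ m) ^ α / (2 ^ α - 1) := by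
  have h1 := two_pow_gt hα
  have h3 : 0 < (2 : ℝ) ^ α - 1 := by linarith
  induction m with
  | zero =>
    simp only [SS, Finset.range_zero, Finset.sum_empty]
    positivity
  | succ m ih =>
    have e : SS α (m + 1) = SS α m + ((2 : ℝ) ^ m) ^ α := by
      unfold SS
      rw [Finset.sum_range_succ]
    rw [e, pow_succ, Real.mul_rpow (by positivity) (by norm_num)]
    have e2 : ((2 : ℝ) ^ m) ^ α * 2 ^ α / (2 ^ α - 1) =
        ((2 : ℝ) ^ m) ^ α / (2 ^ α - 1) + ((2 : ℝ) ^ m) ^ α := by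
      field_simp
      ring
    rw [e2]
    linarith

end

end Pool.Agent.W2helper18.HX
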