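import Pool.Agent.W2helper18.HX.UpA
import Pool.Agent.Helper802.HolderExt.Glue

/-!
# MP_e08f0b_an, upper bound: average over scales
-/

open MeasureTheory Real Pool.Agent.Helper802.HolderExt

namespace Pool.Agent.W2helper18.HX

noncomputable section

variable {V : Type*} [NormedAddCommGroup V] [InnerProductSpace ℝ V] [FiniteDimensional ℝ V]
  [MeasurableSpace V] [BorelSpace V]

variable (V) in
/-- the bound at one scale -/
def MM (α r t : ℝ) : ℝ :=
  300000 * (bb V ^ (α - 1 / 2) * t ^ α) * min ((r / (bb V * t)) ^ (α - 1 / 2))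
    ((r / (bb V * t)) ^ (-(1 - α)))

theorem scaled2 {M : Type*} [MetricSpace M] [Finite M] {α : ℝ} (h12 : 1 / 2 < α) (h1 : α < 1)
    (hN : 1 ≤ Module.finrank ℝ V) {E : Finset M} (hE : E.Nonempty) {φ : M → V}
    (hφ : ∀ e ∈ E, ∀ e' ∈ E, ‖φ e - φ e'‖ ≤ dist e e' ^ α) {r : ℝ} (hr : 0 < r) :
    ∃ Ψ : M → V, (∀ f, ∀ e ∈ E, dist f e ≤ 5 * r → ‖Ψ f - φ e‖ ≤ 23 * r ^ α) ∧
      (∀ f g, ∀ e ∈ E, dist f e ≤ 5 * r → dist g e ≤ 5 * r → dist f g ≤ r →
        ‖Ψ f - Ψ g‖ ≤ MM V α r (dist f g)) := by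
  have hs : 0 < r ^ α := Real.rpow_pos_of_pos hr α
  have hb := bb_pos V
  set s := r ^ α with hsdef
  obtain ⟨Ψ, hΨ1, hΨ2⟩ := local_ext (E := E) (D := fun x y : M => dist x y / r)
    (φ := fun e => s⁻¹ • φ e)
    (fun x y => by positivity)
    (fun x y => by simp only [dist_comm])
    (fun x y z => by
      rw [← add_div]
      exact div_le_div_of_nonneg_right (dist_triangle _ _ _) hr.le)
    (fun e he e' he' => by
      rw [← smul_sub, norm_smul, Real.norm_eq_abs, abs_of_pos (inv_pos.2 hs)]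
      have h2 : s⁻¹ * ‖φ e - φ e'‖ ≤ s⁻¹ * dist e e' ^ α :=
        mul_le_mul_of_nonneg_left (hφ e he e' he') (inv_pos.2 hs).le
      have h3 : s⁻¹ * dist e e' ^ α = (dist e e' / r) ^ α := by
        rw [Real.div_rpow dist_nonneg hr.le, hsdef]
        field_simp
      rw [h3] at h2
      exact h2.trans (rpow_le_one_add (by positivity) (by linarith) h1.le))
    hN
    (fun x y hxy => div_pos (dist_pos.2 hxy) hr)
    (fun x => by simp) hE
  refine ⟨fun f => s • Ψ f, ?_, ?_⟩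
  · intro f e he hfe
    have h2 := hΨ1 f e he ((div_le_iff₀ hr).2 hfe)
    have e1 : s • Ψ f - φ e = s • (Ψ f - s⁻¹ • φ e) := by
      rw [smul_sub, smul_smul, mul_inv_cancel₀ hs.ne', one_smul]
    rw [e1, norm_smul, Real.norm_eq_abs, abs_of_pos hs]
    nlinarith
  · intro f g e he hfe hge hfg
    rcases (dist_nonneg (x := f) (y := g)).eq_or_lt with h0 | ht
    · have hfg' : f = g := dist_eq_zero.1 h0.symm
      subst hfg'
      simp only [sub_self, norm_zero]
      unfold MM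
      positivity
    obtain ⟨h2, h3⟩ := hΨ2 f g e he ((div_le_iff₀ hr).2 hfe) ((div_le_iff₀ hr).2 hge)
      ((div_le_one hr).2 hfg)
    simp only
    rw [← smul_sub, norm_smul, Real.norm_eq_abs, abs_of_pos hs]
    set t := dist f g with htdef
    have hbt : 0 < bb V * t := mul_pos hb ht
    have E1 : s * (√(bb V) * (t / r)) =
        bb V ^ (α - 1 / 2) * t ^ α * (r / (bb V * t)) ^ (-(1 - α)) := by
      rw [Real.div_rpow hr.le hbt.le, Real.mul_rpow hb.le ht.le, Real.sqrt_eq_rpow, hsdef]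
      have q1 : t = t ^ α * t ^ (1 - α) := by
        rw [← Real.rpow_add ht]; simp
      have q2 : r ^ (-(1 - α)) = r ^ α / r := by
        rw [show -(1 - α) = α - 1 by ring, Real.rpow_sub hr, Real.rpow_one]
      have q3 : bb V ^ (1 / 2 : ℝ) = bb V ^ (α - 1 / 2) * bb V ^ (1 - α) := by
        rw [← Real.rpow_add hb]; congr 1; ring
      rw [q2, q3, Real.rpow_neg hb.le, Real.rpow_neg ht.le]
      have p1 : 0 < bb V ^ (1 - α) := Real.rpow_pos_of_pos hb _
      have p2 : 0 < t ^ (1 - α) := Real.rpow_pos_of_pos ht _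
      have p3 : 0 < t ^ α := Real.rpow_pos_of_pos ht _
      have q4 : t / r = t ^ α * t ^ (1 - α) / r := by rw [← q1]
      rw [q4]
      field_simp
    have E2 : s * √(t / r) =
        bb V ^ (α - 1 / 2) * t ^ α * (r / (bb V * t)) ^ (α - 1 / 2) := by
      rw [Real.div_rpow hr.le hbt.le, Real.mul_rpow hb.le ht.le, Real.sqrt_eq_rpow,
        Real.div_rpow ht.le hr.le, hsdef, Real.rpow_sub hr, Real.rpow_sub ht]
      have p1 : 0 < bb V ^ (α - 1 / 2) := Real.rpow_pos_of_pos hb _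
      have p2 : 0 < t ^ (1 / 2 : ℝ) := Real.rpow_pos_of_pos ht _
      have p3 : 0 < t ^ α := Real.rpow_pos_of_pos ht _
      have p4 : 0 < r ^ (1 / 2 : ℝ) := Real.rpow_pos_of_pos hr _
      field_simp
    have F1 : s * ‖Ψ f - Ψ g‖ ≤ 300000 * (bb V ^ (α - 1 / 2) * t ^ α) *
        (r / (bb V * t)) ^ (-(1 - α)) := by
      calc s * ‖Ψ f - Ψ g‖ ≤ s * (300000 * (√(bb V) * (t / r))) :=
            mul_le_mul_of_nonneg_left h2 hs.le
        _ = 300000 * (s * (√(bb V) * (t / r))) := by ring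
        _ = _ := by rw [E1]; ring
    have F2 : s * ‖Ψ f - Ψ g‖ ≤ 300000 * (bb V ^ (α - 1 / 2) * t ^ α) *
        (r / (bb V * t)) ^ (α - 1 / 2) := by
      calc s * ‖Ψ f - Ψ g‖ ≤ s * (78 * √(t / r)) := mul_le_mul_of_nonneg_left h3 hs.le
        _ = 78 * (s * √(t / r)) := by ring
        _ ≤ 300000 * (s * √(t / r)) :=
            mul_le_mul_of_nonneg_right (by norm_num) (by positivity)
        _ = _ := by rw [E2]; ring
    unfold MM
    rcases min_choice ((r / (bb V * t)) ^ (α - 1 / 2)) ((r / (bb V * t)) ^ (-(1 - α))) with h | h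
    · rw [h]; exact F2
    · rw [h]; exact F1

/-- averaging over `m` scales -/
theorem averaged {M : Type*} [MetricSpace M] [Finite M] {α : ℝ} (h12 : 1 / 2 < α) (h1 : α < 1)
    (hN : 1 ≤ Module.finrank ℝ V) {E : Finset M} (hE : E.Nonempty) {φ : M → V}
    (hφ : ∀ e ∈ E, ∀ e' ∈ E, ‖φ e - φ e'‖ ≤ dist e e' ^ α) {r : ℝ} (hr : 0 < r)
    {m : ℕ} (hm : 1 ≤ m) :
    ∃ Ψ : M → V, (∀ f, ∀ e ∈ E, dist f e ≤ 5 * r →
        ‖Ψ f - φ e‖ ≤ 23 * (SS α m / m) * r ^ α) ∧
      (∀ f g, ∀ e ∈ E, dist f e ≤ 5 * r → dist g e ≤ 5 * r → dist f g ≤ r →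
        ‖Ψ f - Ψ g‖ ≤ 300000 * CT (α - 1 / 2) (1 - α) / m * bb V ^ (α - 1 / 2) *
          dist f g ^ α) := by
  have hb := bb_pos V
  have hm0 : (0 : ℝ) < m := by exact_mod_cast hm
  have hall : ∀ i : ℕ, ∃ Ψ : M → V,
      (∀ f, ∀ e ∈ E, dist f e ≤ 5 * (2 ^ i * r) → ‖Ψ f - φ e‖ ≤ 23 * (2 ^ i * r) ^ α) ∧
      (∀ f g, ∀ e ∈ E, dist f e ≤ 5 * (2 ^ i * r) → dist g e ≤ 5 * (2 ^ i * r) →
        dist f g ≤ 2 ^ i * r → ‖Ψ f - Ψ g‖ ≤ MM V α (2 ^ i * r) (dist f g)) := fun i =>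
    scaled2 h12 h1 hN hE hφ (by positivity)
  choose Ψ P1 P2 using hall
  have hle : ∀ i : ℕ, r ≤ 2 ^ i * r := fun i =>
    le_mul_of_one_le_left hr.le (one_le_pow₀ (by norm_num))
  refine ⟨fun f => (m : ℝ)⁻¹ • ∑ i ∈ Finset.range m, Ψ i f, ?_, ?_⟩
  · intro f e he hfe
    have e1 : (m : ℝ)⁻¹ • ∑ i ∈ Finset.range m, Ψ i f - φ e =
        (m : ℝ)⁻¹ • ∑ i ∈ Finset.range m, (Ψ i f - φ e) := by
      rw [Finset.sum_sub_distrib, smul_sub, Finset.sum_const, Finset.card_range,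
        ← Nat.cast_smul_eq_nsmul ℝ, smul_smul, inv_mul_cancel₀ hm0.ne', one_smul]
    rw [e1, norm_smul, norm_inv, Real.norm_of_nonneg hm0.le]
    have h2 : ‖∑ i ∈ Finset.range m, (Ψ i f - φ e)‖ ≤ 23 * SS α m * r ^ α := by
      refine (norm_sum_le _ _).trans ?_
      unfold SS
      rw [Finset.mul_sum, Finset.sum_mul]
      refine Finset.sum_le_sum fun i _ => ?_
      have h3 := P1 i f e he (hfe.trans (mul_le_mul_of_nonneg_left (hle i) (by norm_num)))
      rw [Real.mul_rpow (by positivity) hr.le] at h3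
      linarith
    calc (m : ℝ)⁻¹ * ‖∑ i ∈ Finset.range m, (Ψ i f - φ e)‖ ≤ (m : ℝ)⁻¹ * (23 * SS α m * r ^ α) :=
          mul_le_mul_of_nonneg_left h2 (by positivity)
      _ = _ := by ring
  · intro f g e he hfe hge hfg
    have e1 : (m : ℝ)⁻¹ • ∑ i ∈ Finset.range m, Ψ i f - (m : ℝ)⁻¹ • ∑ i ∈ Finset.range m, Ψ i g =
        (m : ℝ)⁻¹ • ∑ i ∈ Finset.range m, (Ψ i f - Ψ i g) := by
      rw [Finset.sum_sub_distrib, smul_sub]
    simp only
    rw [e1, norm_smul, norm_inv, Real.norm_of_nonneg hm0.le]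
    rcases (dist_nonneg (x := f) (y := g)).eq_or_lt with h0 | ht
    · have hfg' : f = g := dist_eq_zero.1 h0.symm
      subst hfg'
      simp only [sub_self, Finset.sum_const_zero, norm_zero, mul_zero]
      have := (CT_pos (β := α - 1 / 2) (γ := 1 - α) (by linarith) (by linarith)).le
      positivity
    have hbt : 0 < bb V * dist f g := mul_pos hb ht
    have h2 : ‖∑ i ∈ Finset.range m, (Ψ i f - Ψ i g)‖ ≤
        300000 * (bb V ^ (α - 1 / 2) * dist f g ^ α) * CT (α - 1 / 2) (1 - α) := by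
      refine (norm_sum_le _ _).trans ?_
      calc ∑ i ∈ Finset.range m, ‖Ψ i f - Ψ i g‖
          ≤ ∑ i ∈ Finset.range m, MM V α (2 ^ i * r) (dist f g) :=
            Finset.sum_le_sum fun i _ => P2 i f g e he
              (hfe.trans (mul_le_mul_of_nonneg_left (hle i) (by norm_num)))
              (hge.trans (mul_le_mul_of_nonneg_left (hle i) (by norm_num)))
              (hfg.trans (hle i))
        _ = 300000 * (bb V ^ (α - 1 / 2) * dist f g ^ α) *
            ∑ i ∈ Finset.range m, min (((2 : ℝ) ^ i * (r / (bb V * dist f g))) ^ (α - 1 / 2))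
              (((2 : ℝ) ^ i * (r / (bb V * dist f g))) ^ (-(1 - α))) := by
            rw [Finset.mul_sum]
            refine Finset.sum_congr rfl fun i _ => ?_
            unfold MM
            rw [mul_div_assoc]
        _ ≤ _ := mul_le_mul_of_nonneg_left
            (tent (by linarith) (by linarith) m (div_pos hr hbt)) (by positivity)
    calc (m : ℝ)⁻¹ * ‖∑ i ∈ Finset.range m, (Ψ i f - Ψ i g)‖
        ≤ (m : ℝ)⁻¹ * (300000 * (bb V ^ (α - 1 / 2) * dist f g ^ α) *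
          CT (α - 1 / 2) (1 - α)) := mul_le_mul_of_nonneg_left h2 (by positivity)
      _ = _ := by ring

end

end Pool.Agent.W2helper18.HX
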