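import Pool.Agent.W2helper18.HX.UpB

/-!
# MP_e08f0b_an, upper bound: gluing the scales, and compactness

The proofs follow `Pool/Agent/Helper802/HolderExt/Glue.lean` and `Compact.lean`.
-/

open MeasureTheory Real Filter Topology Pool.Agent.Helper802.HolderExt

noncomputable section

namespace Pool.Agent.W2helper18.HX

universe u v

section

variable {V : Type*} [NormedAddCommGroup V] [InnerProductSpace ℝ V]

theorem glue_ext
    {M : Type*} [MetricSpace M] {α : ℝ} (h12 : 1 / 2 < α) (h1 : α < 1)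
    {E : Finset M} (hE : E.Nonempty) {φ : M → V}
    (hφ : ∀ e ∈ E, ∀ e' ∈ E, ‖φ e - φ e'‖ ≤ dist e e' ^ α) {A : ℝ} (hA : 0 ≤ A)
    (hall : ∀ j : ℤ, ∃ Ψ : M → V,
      (∀ f, ∀ e ∈ E, dist f e ≤ 5 * 2 ^ j → ‖Ψ f - φ e‖ ≤ 23 * ((2 : ℝ) ^ j) ^ α) ∧
      (∀ f g, ∀ e ∈ E, dist f e ≤ 5 * 2 ^ j → dist g e ≤ 5 * 2 ^ j → dist f g ≤ 2 ^ j →
        ‖Ψ f - Ψ g‖ ≤ A * dist f g ^ α)) :
    ∃ ψ : M → V, (∀ e ∈ E, ψ e = φ e) ∧
      ∀ f g, ‖ψ f - ψ g‖ ≤ (A + 377) * dist f g ^ α := by
  classical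
  choose Ψ P1 P2 using hall
  have hnear : ∀ f : M, ∃ e ∈ E, ∀ e' ∈ E, dist f e ≤ dist f e' := fun f =>
    Finset.exists_min_image E (fun e => dist f e) hE
  choose p hp hpmin using hnear
  have hα0 : α ≠ 0 := by linarith
  set ψ : M → V := fun f => if f ∈ E then φ f else PP Ψ (dist f (p f)) f with hψ
  have hrpos : ∀ f, f ∉ E → 0 < dist f (p f) := by
    intro f hf
    refine dist_pos.2 fun h => hf ?_
    rw [h]; exact hp f
  have hψE : ∀ e ∈ E, ψ e = φ e := fun e he => if_pos he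
  have hψn : ∀ f, f ∉ E → ψ f = PP Ψ (dist f (p f)) f := fun f hf => if_neg hf
  have hloc : ∀ f, ‖ψ f - φ (p f)‖ ≤ 46 * dist f (p f) ^ α := by
    intro f
    by_cases hf : f ∈ E
    · have h2 := hpmin f f hf
      rw [dist_self] at h2
      have h3 : f = p f := dist_le_zero.1 h2
      rw [hψE f hf, ← h3]
      simp [Real.zero_rpow hα0]
    · rw [hψn f hf]
      have hr := hrpos f hf
      refine PP_near h12 h1 P1 hr (hp f) ?_
      have := (log_facts hr).2
      have hu : (0 : ℝ) < 2 ^ Int.log 2 (dist f (p f)) := by positivity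
      linarith
  refine ⟨ψ, hψE, ?_⟩
  have key : ∀ f g, dist g (p g) ≤ dist f (p f) →
      ‖ψ f - ψ g‖ ≤ (A + 377) * dist f g ^ α := by
    intro f g hgf
    have hδ0 : 0 ≤ dist f g := dist_nonneg
    have hδα : 0 ≤ dist f g ^ α := by positivity
    have hrf := hpmin f (p g) (hp g)
    have htri : dist f (p g) ≤ dist f g + dist g (p g) := dist_triangle _ _ _
    have hAδ : 0 ≤ A * dist f g ^ α := by positivity
    rcases le_or_gt (dist f (p f) / 4) (dist f g) with hbig | hsmall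
    · -- far apart
      have l1 := hloc f
      have l2 := hloc g
      have l3 := hφ (p f) (hp f) (p g) (hp g)
      have m1 : dist f (p f) ^ α ≤ 4 * dist f g ^ α :=
        (Real.rpow_le_rpow dist_nonneg (show dist f (p f) ≤ 4 * dist f g by linarith)
          (by linarith)).trans (mul_rpow_le (by norm_num) hδ0 h1.le)
      have m2 : dist g (p g) ^ α ≤ 4 * dist f g ^ α :=
        (Real.rpow_le_rpow dist_nonneg (show dist g (p g) ≤ 4 * dist f g by linarith)
          (by linarith)).trans (mul_rpow_le (by norm_num) hδ0 h1.le)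
      have m3 : dist (p f) (p g) ^ α ≤ 9 * dist f g ^ α := by
        refine (Real.rpow_le_rpow dist_nonneg (show dist (p f) (p g) ≤ 9 * dist f g from ?_)
          (by linarith)).trans (mul_rpow_le (by norm_num) hδ0 h1.le)
        have := dist_triangle (p f) f (p g)
        rw [dist_comm (p f) f] at this
        linarith
      have e1 : ψ f - ψ g = (ψ f - φ (p f)) + (φ (p f) - φ (p g)) - (ψ g - φ (p g)) := by abel
      rw [e1]
      have n1 := norm_sub_le ((ψ f - φ (p f)) + (φ (p f) - φ (p g))) (ψ g - φ (p g))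
      have n2 := norm_add_le (ψ f - φ (p f)) (φ (p f) - φ (p g))
      linarith
    · -- close
      have hrf0 : 0 < dist f (p f) := by linarith
      have hrg0 : 0 < dist g (p g) := by linarith
      have hfE : f ∉ E := fun hf => by
        have := hpmin f f hf
        rw [dist_self] at this
        linarith
      have hgE : g ∉ E := fun hg => by
        have := hpmin g g hg
        rw [dist_self] at this
        linarith
      obtain ⟨hu1, hu2⟩ := log_facts hrf0
      have hk1 : (2 : ℝ) ^ (Int.log 2 (dist f (p f))) =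
          2 * 2 ^ (Int.log 2 (dist f (p f)) - 1) := by
        rw [zpow_sub₀ (by norm_num), zpow_one]; ring
      rw [hψn f hfE, hψn g hgE]
      have b1 := PP_same P2 hrf0 (f := f) (g := g) (e := p g) (hp g) (by linarith)
        (by linarith) (by linarith)
      have b2 := PP_radial h12 h1 P1 (g := g) (e := p g) hrg0 hgf (by linarith) (hp g)
        (by linarith)
      have b3 : (dist f (p f) - dist g (p g)) ^ α ≤ dist f g ^ α :=
        Real.rpow_le_rpow (by linarith) (by linarith) (by linarith)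
      have e1 : PP Ψ (dist f (p f)) f - PP Ψ (dist g (p g)) g =
          (PP Ψ (dist f (p f)) f - PP Ψ (dist f (p f)) g) +
          (PP Ψ (dist f (p f)) g - PP Ψ (dist g (p g)) g) := by abel
      rw [e1]
      refine (norm_add_le _ _).trans ?_
      linarith
  intro f g
  rcases le_total (dist g (p g)) (dist f (p f)) with h | h
  · exact key f g h
  · rw [norm_sub_rev, dist_comm]
    exact key g f h

end

variable {V : Type v} [NormedAddCommGroup V] [InnerProductSpace ℝ V]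

theorem piece_ext
    {M : Type u} [MetricSpace M] {α K : ℝ}
    (hfin : ∀ (M : Type u) [MetricSpace M] [Finite M] (E : Finset M), E.Nonempty →
      ∀ φ : M → V, (∀ e ∈ E, ∀ e' ∈ E, ‖φ e - φ e'‖ ≤ dist e e' ^ α) →
      ∃ ψ : M → V, (∀ e ∈ E, ψ e = φ e) ∧ ∀ f g, ‖ψ f - ψ g‖ ≤ K * dist f g ^ α)
    {E : Set M} {φ : E → V}
    (hφ : ∀ x y : E, ‖φ x - φ y‖ ≤ dist (x : M) (y : M) ^ α) (e0 : E) (S : Finset M)
    (hS : (e0 : M) ∈ S) :
    ∃ ψ : M → V, (∀ x : E, (x : M) ∈ S → ψ x = φ x) ∧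
      (∀ f ∈ S, ∀ g ∈ S, ‖ψ f - ψ g‖ ≤ K * dist f g ^ α) ∧
      (∀ f, f ∉ S → ψ f = φ e0) := by
  classical
  obtain ⟨ψ, ha, hb⟩ := hfin {x : M // x ∈ S}
    (Finset.univ.filter (fun x : {x : M // x ∈ S} => (x : M) ∈ E))
    ⟨⟨e0, hS⟩, by simp⟩
    (fun x => if h : (x : M) ∈ E then φ ⟨x, h⟩ else 0)
    (fun x hx y hy => by
      have hx' : (x : M) ∈ E := by simpa using hx
      have hy' : (y : M) ∈ E := by simpa using hy
      rw [dif_pos hx', dif_pos hy']
      exact hφ ⟨x, hx'⟩ ⟨y, hy'⟩)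
  refine ⟨fun f => if h : f ∈ S then ψ ⟨f, h⟩ else φ e0, ?_, ?_, ?_⟩
  · intro x hx
    simp only
    rw [dif_pos hx, ha ⟨x, hx⟩ (by simp), dif_pos x.2]
  · intro f hf g hg
    simp only
    rw [dif_pos hf, dif_pos hg]
    exact hb ⟨f, hf⟩ ⟨g, hg⟩
  · intro f hf
    exact dif_neg hf

theorem general_ext [FiniteDimensional ℝ V]
    {M : Type u} [MetricSpace M] {α K : ℝ} (hA : 0 ≤ K)
    (hfin : ∀ (M : Type u) [MetricSpace M] [Finite M] (E : Finset M), E.Nonempty →
      ∀ φ : M → V, (∀ e ∈ E, ∀ e' ∈ E, ‖φ e - φ e'‖ ≤ dist e e' ^ α) →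
      ∃ ψ : M → V, (∀ e ∈ E, ψ e = φ e) ∧ ∀ f g, ‖ψ f - ψ g‖ ≤ K * dist f g ^ α)
    {E : Set M} {φ : E → V}
    (hφ : ∀ x y : E, ‖φ x - φ y‖ ≤ dist (x : M) (y : M) ^ α) :
    ∃ ψ : M → V, (∀ x : E, ψ x = φ x) ∧
      ∀ f g, ‖ψ f - ψ g‖ ≤ K * dist f g ^ α := by
  classical
  rcases E.eq_empty_or_nonempty with hE | ⟨e0', he0⟩
  · refine ⟨fun _ => 0, fun x => ?_, fun f g => ?_⟩
    · exact absurd x.2 (Set.eq_empty_iff_forall_notMem.1 hE x)
    · simp only [sub_zero, norm_zero]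
      positivity
  let e0 : E := ⟨e0', he0⟩
  have hp : ∀ S : Finset M, ∃ ψ : M → V, (∀ x : E, (x : M) ∈ S → ψ x = φ x) ∧
      (∀ f ∈ S, ∀ g ∈ S, ‖ψ f - ψ g‖ ≤ K * dist f g ^ α) ∧
      (∀ f, ψ f ∈ Metric.closedBall (φ e0) (K * dist f (e0 : M) ^ α)) := by
    intro S
    obtain ⟨ψ, ha, hb, hc⟩ := piece_ext hfin hφ e0 (insert (e0 : M) S)
      (Finset.mem_insert_self _ _)
    refine ⟨ψ, fun x hx => ha x (Finset.mem_insert_of_mem hx),
      fun f hf g hg => hb f (Finset.mem_insert_of_mem hf) g (Finset.mem_insert_of_mem hg),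
      fun f => ?_⟩
    rw [Metric.mem_closedBall, dist_eq_norm]
    by_cases hf : f ∈ insert (e0 : M) S
    · have h2 := hb f hf e0 (Finset.mem_insert_self _ _)
      rwa [ha e0 (Finset.mem_insert_self _ _)] at h2
    · rw [hc f hf, sub_self, norm_zero]
      positivity
  choose Ψ Ha Hb Hc using hp
  let U : Ultrafilter (Finset M) := Ultrafilter.of atTop
  have hU : (U : Filter (Finset M)) ≤ atTop := Ultrafilter.of_le _
  have hlim : ∀ f : M, ∃ v : V, Tendsto (fun S => Ψ S f) U (𝓝 v) := by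
    intro f
    obtain ⟨v, -, hv⟩ := (isCompact_closedBall (φ e0)
      (K * dist f (e0 : M) ^ α)).ultrafilter_le_nhds (U.map fun S => Ψ S f) (by
        rw [le_principal_iff, Ultrafilter.coe_map, mem_map]
        exact Filter.Eventually.of_forall fun S => Hc S f)
    exact ⟨v, hv⟩
  choose ψ hψ using hlim
  have hev : ∀ x : M, ∀ᶠ S in (U : Filter (Finset M)), x ∈ S := fun x =>
    hU ((eventually_ge_atTop ({x} : Finset M)).mono fun S hS => hS (Finset.mem_singleton_self x))
  refine ⟨ψ, fun x => ?_, fun f g => ?_⟩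
  · refine tendsto_nhds_unique (hψ x) ((tendsto_congr' ?_).2 tendsto_const_nhds)
    filter_upwards [hev x] with S hS using Ha S x hS
  · refine le_of_tendsto ((hψ f).sub (hψ g)).norm ?_
    filter_upwards [hev f, hev g] with S hf hg using Hb S f hf g hg

end Pool.Agent.W2helper18.HX
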