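import Pool.Agent.W2helper18.HX.UpC

/-!
# MP_e08f0b_an: the upper bound `C n^(α - 1/2) / log n`
-/

open MeasureTheory Real Filter Topology Pool.Agent.Helper802.HolderExt

noncomputable section

namespace Pool.Agent.W2helper18.HX

universe u

theorem finite_avg {V : Type*} [NormedAddCommGroup V] [InnerProductSpace ℝ V]
    [FiniteDimensional ℝ V] [MeasurableSpace V] [BorelSpace V]
    {M : Type*} [MetricSpace M] [Finite M] {α : ℝ} (h12 : 1 / 2 < α) (h1 : α < 1)
    (hN : 1 ≤ Module.finrank ℝ V) {E : Finset M} (hE : E.Nonempty) {φ : M → V}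
    (hφ : ∀ e ∈ E, ∀ e' ∈ E, ‖φ e - φ e'‖ ≤ dist e e' ^ α) {m : ℕ} (hm : 1 ≤ m) :
    ∃ ψ : M → V, (∀ e ∈ E, ψ e = φ e) ∧
      ∀ f g, ‖ψ f - ψ g‖ ≤ (300000 * CT (α - 1 / 2) (1 - α) / m * bb V ^ (α - 1 / 2) +
        377 * (SS α m / m)) * dist f g ^ α := by
  have hb := bb_pos V
  have hm0 : (0 : ℝ) < m := by exact_mod_cast hm
  have hCT := CT_pos (β := α - 1 / 2) (γ := 1 - α) (by linarith) (by linarith)
  obtain ⟨A, hAd⟩ : ∃ A : ℝ, A = 300000 * CT (α - 1 / 2) (1 - α) / m * bb V ^ (α - 1 / 2) :=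
    ⟨_, rfl⟩
  have hA0 : 0 ≤ A := by rw [hAd]; positivity
  obtain ⟨s, hs⟩ : ∃ s : ℝ, s = SS α m / m := ⟨_, rfl⟩
  have hs1 : 1 ≤ s := by
    rw [hs, one_le_div hm0]
    exact SS_ge (by linarith) m
  have hs0 : 0 < s := by linarith
  have hsi : s⁻¹ ≤ 1 := inv_le_one_of_one_le₀ hs1
  rw [← hAd, ← hs]
  obtain ⟨ψ, ha, hb'⟩ := glue_ext h12 h1 hE (φ := fun x => s⁻¹ • φ x) (A := s⁻¹ * A)
    (fun e he e' he' => by
      rw [← smul_sub, norm_smul, Real.norm_of_nonneg (by positivity)]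
      have h2 := hφ e he e' he'
      have h3 : 0 ≤ dist e e' ^ α := by positivity
      calc s⁻¹ * ‖φ e - φ e'‖ ≤ 1 * dist e e' ^ α :=
            mul_le_mul hsi h2 (norm_nonneg _) zero_le_one
        _ = _ := one_mul _)
    (by positivity)
    (fun j => by
      obtain ⟨Ψ, P1, P2⟩ := averaged h12 h1 hN hE hφ (r := (2 : ℝ) ^ j) (by positivity) hm
      refine ⟨fun f => s⁻¹ • Ψ f, ?_, ?_⟩
      · intro f e he hfe
        rw [← smul_sub, norm_smul, Real.norm_of_nonneg (by positivity)]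
        have h2 := P1 f e he hfe
        rw [← hs] at h2
        calc s⁻¹ * ‖Ψ f - φ e‖ ≤ s⁻¹ * (23 * s * ((2 : ℝ) ^ j) ^ α) :=
              mul_le_mul_of_nonneg_left h2 (by positivity)
          _ = _ := by field_simp
      · intro f g e he hfe hge hfg
        simp only
        rw [← smul_sub, norm_smul, Real.norm_of_nonneg (by positivity), mul_assoc]
        refine mul_le_mul_of_nonneg_left ?_ (by positivity)
        rw [hAd]
        exact P2 f g e he hfe hge hfg)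
  refine ⟨fun f => s • ψ f, ?_, ?_⟩
  · intro e he
    simp only
    rw [ha e he, smul_smul, mul_inv_cancel₀ hs0.ne', one_smul]
  · intro f g
    simp only
    rw [← smul_sub, norm_smul, Real.norm_of_nonneg hs0.le]
    calc s * ‖ψ f - ψ g‖ ≤ s * ((s⁻¹ * A + 377) * dist f g ^ α) :=
          mul_le_mul_of_nonneg_left (hb' f g) hs0.le
      _ = _ := by field_simp

theorem upper_final {α : ℝ} (h12 : 1 / 2 < α) (h1 : α < 1) :
    ∃ Q : ℝ, 0 < Q ∧ ∀ n : ℕ, 1 ≤ n → ∀ (M : Type u) [MetricSpace M] (E : Set M)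
      (φ : E → EuclideanSpace ℝ (Fin n)),
      (∀ x y : E, ‖φ x - φ y‖ ≤ dist (x : M) (y : M) ^ α) →
      ∃ ψ : M → EuclideanSpace ℝ (Fin n), (∀ x : E, ψ (x : M) = φ x) ∧
        ∀ x y : M, ‖ψ x - ψ y‖ ≤ Q * ((n : ℝ) ^ (α - 1 / 2) / (1 + log n)) * dist x y ^ α := by
  have hCT := CT_pos (β := α - 1 / 2) (γ := 1 - α) (by linarith) (by linarith)
  have hα0 : 0 < α := by linarith
  have h2α := two_pow_gt hα0
  have h2α' : 0 < (2 : ℝ) ^ α - 1 := by linarith
  have hl2 : 0 < log 2 := Real.log_pos (by norm_num)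
  obtain ⟨a, ha⟩ : ∃ a : ℝ, a = (α - 1 / 2) / (α * log 2) := ⟨_, rfl⟩
  have ha0 : 0 < a := by
    rw [ha]; exact div_pos (by linarith) (by positivity)
  have hmin : 0 < min 1 a := lt_min one_pos ha0
  obtain ⟨q, hq⟩ : ∃ q : ℝ, q = 300000 * CT (α - 1 / 2) (1 - α) * 2 +
    377 * (2 / (2 ^ α - 1)) := ⟨_, rfl⟩
  have hq0 : 0 < q := by rw [hq]; positivity
  refine ⟨q * (2 / min 1 a), by positivity, ?_⟩
  intro n hn
  have hn1 : (1 : ℝ) ≤ n := by exact_mod_cast hn
  have hn0 : (0 : ℝ) < n := by linarith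
  have hlog : 0 ≤ log n := Real.log_nonneg hn1
  have hal : 0 ≤ a * log n := by positivity
  obtain ⟨m, hmd⟩ : ∃ m : ℕ, m = 1 + ⌊a * log n⌋₊ := ⟨_, rfl⟩
  have hm : 1 ≤ m := by omega
  have hm0 : (0 : ℝ) < m := by exact_mod_cast hm
  have hm1 : (m : ℝ) ≤ 1 + a * log n := by
    rw [hmd]
    push_cast
    have := Nat.floor_le hal
    linarith
  have hm2 : a * log n ≤ m := by
    rw [hmd]
    push_cast
    have := (Nat.lt_floor_add_one (a * log n)).le
    linarith
  have hm3 : (1 : ℝ) ≤ m := by exact_mod_cast hm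
  have hnα : 0 < (n : ℝ) ^ (α - 1 / 2) := Real.rpow_pos_of_pos hn0 _
  have hSS : SS α m ≤ 2 / (2 ^ α - 1) * (n : ℝ) ^ (α - 1 / 2) := by
    refine (SS_le hα0 m).trans ?_
    rw [div_mul_eq_mul_div]
    refine div_le_div_of_nonneg_right ?_ h2α'.le
    rw [← Real.rpow_natCast, ← Real.rpow_mul (by norm_num)]
    calc (2 : ℝ) ^ ((m : ℝ) * α) ≤ 2 ^ (1 + a * log n * α) := by
          refine Real.rpow_le_rpow_of_exponent_le (by norm_num) ?_
          nlinarith
      _ = 2 * (n : ℝ) ^ (α - 1 / 2) := by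
          rw [Real.rpow_add (by norm_num), Real.rpow_one, Real.rpow_def_of_pos (by norm_num : (0:ℝ) < 2),
            Real.rpow_def_of_pos hn0]
          congr 2
          rw [ha]
          field_simp
  have hK : 300000 * CT (α - 1 / 2) (1 - α) / m *
      bb (EuclideanSpace ℝ (Fin n)) ^ (α - 1 / 2) + 377 * (SS α m / m) ≤
      q * (2 / min 1 a) * ((n : ℝ) ^ (α - 1 / 2) / (1 + log n)) := by
    have hbb : bb (EuclideanSpace ℝ (Fin n)) ^ (α - 1 / 2) ≤ 2 * (n : ℝ) ^ (α - 1 / 2) := by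
      unfold bb
      rw [finrank_euclideanSpace_fin]
      exact (Real.rpow_le_rpow (by positivity) (show (n : ℝ) + 1 ≤ 2 * n by linarith)
        (by linarith)).trans (mul_rpow_le (by norm_num) (by positivity) (by linarith))
    have h3 : 300000 * CT (α - 1 / 2) (1 - α) / m *
      bb (EuclideanSpace ℝ (Fin n)) ^ (α - 1 / 2) + 377 * (SS α m / m) ≤
      q * (n : ℝ) ^ (α - 1 / 2) / m := by
      rw [le_div_iff₀ hm0]
      calc (300000 * CT (α - 1 / 2) (1 - α) / m *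
            bb (EuclideanSpace ℝ (Fin n)) ^ (α - 1 / 2) + 377 * (SS α m / m)) * m
          = 300000 * CT (α - 1 / 2) (1 - α) *
            bb (EuclideanSpace ℝ (Fin n)) ^ (α - 1 / 2) + 377 * SS α m := by
            field_simp
        _ ≤ 300000 * CT (α - 1 / 2) (1 - α) * (2 * (n : ℝ) ^ (α - 1 / 2)) +
            377 * (2 / (2 ^ α - 1) * (n : ℝ) ^ (α - 1 / 2)) := by
            gcongr
        _ = q * (n : ℝ) ^ (α - 1 / 2) := by rw [hq]; ring
    have h4 : 1 / (m : ℝ) ≤ 2 / min 1 a * (1 / (1 + log n)) := by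
      rw [div_mul_div_comm, mul_one, div_le_div_iff₀ hm0 (by positivity)]
      have h5 : min 1 a * (1 + log n) ≤ 1 + a * log n := by
        have h6 : min 1 a ≤ 1 := min_le_left _ _
        have h7 : min 1 a * log n ≤ a * log n :=
          mul_le_mul_of_nonneg_right (min_le_right _ _) hlog
        linarith
      linarith
    refine h3.trans ?_
    calc q * (n : ℝ) ^ (α - 1 / 2) / m = q * (n : ℝ) ^ (α - 1 / 2) * (1 / m) := by ring
      _ ≤ q * (n : ℝ) ^ (α - 1 / 2) * (2 / min 1 a * (1 / (1 + log n))) :=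
          mul_le_mul_of_nonneg_left h4 (by positivity)
      _ = _ := by ring
  intro M _ E φ hφ
  refine general_ext (V := EuclideanSpace ℝ (Fin n)) (α := α)
    (K := q * (2 / min 1 a) * ((n : ℝ) ^ (α - 1 / 2) / (1 + log n))) (by positivity)
    (fun M _ _ E hE φ hφ => ?_) hφ
  obtain ⟨ψ, ha', hb'⟩ := finite_avg (V := EuclideanSpace ℝ (Fin n)) h12 h1
    (by rw [finrank_euclideanSpace_fin]; exact hn) hE hφ hm
  exact ⟨ψ, ha', fun f g => (hb' f g).trans (mul_le_mul_of_nonneg_right hK (by positivity))⟩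

end Pool.Agent.W2helper18.HX
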